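import Pool.Agent.T6.H13.CC.Der

/-! Elliptic curves with `j ≠ 0` in characteristic two. -/

set_option autoImplicit false
set_option linter.unusedSectionVars false

open Module IntermediateField Polynomial WeierstrassCurve
open scoped Polynomial.Bivariate

namespace Pool.Agent.T6.H13.CC

universe u

variable {K : Type u} [Field K] (W : WeierstrassCurve K)

noncomputable def xx : W.toAffine.FunctionField :=
  algebraMap W.toAffine.CoordinateRing _ (Affine.CoordinateRing.mk W.toAffine (C X))

noncomputable def yy : W.toAffine.FunctionField :=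
  algebraMap W.toAffine.CoordinateRing _ (Affine.CoordinateRing.mk W.toAffine Y)

theorem am_eq (c : K) : algebraMap K W.toAffine.FunctionField c =
    algebraMap W.toAffine.CoordinateRing _ (Affine.CoordinateRing.mk W.toAffine (C (C c))) := by
  rw [IsScalarTower.algebraMap_apply K W.toAffine.CoordinateRing W.toAffine.FunctionField]
  rfl

theorem wei_eq : yy W ^ 2 + algebraMap K _ W.a₁ * xx W * yy W + algebraMap K _ W.a₃ * yy W =
    xx W ^ 3 + algebraMap K _ W.a₂ * xx W ^ 2 + algebraMap K _ W.a₄ * xx W +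
      algebraMap K _ W.a₆ := by
  have hpoly : W.toAffine.polynomial = Y ^ 2 + C (C W.a₁ * X + C W.a₃) * Y -
      C (X ^ 3 + C W.a₂ * X ^ 2 + C W.a₄ * X + C W.a₆) := rfl
  have h : Affine.CoordinateRing.mk W.toAffine (Y ^ 2 + C (C W.a₁ * X + C W.a₃) * Y -
      C (X ^ 3 + C W.a₂ * X ^ 2 + C W.a₄ * X + C W.a₆)) = 0 := by
    rw [← hpoly]
    exact AdjoinRoot.mk_self
  have h' := congrArg (algebraMap W.toAffine.CoordinateRing W.toAffine.FunctionField) h
  simp only [map_add, map_sub, map_mul, map_pow, map_zero] at h'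
  simp only [am_eq]
  simp only [xx, yy]
  linear_combination h'

theorem aeval_xx (p : K[X]) : aeval (xx W) p =
    algebraMap W.toAffine.CoordinateRing _ (Affine.CoordinateRing.mk W.toAffine (C p)) := by
  induction p using Polynomial.induction_on' with
  | add p q hp hq => simp only [map_add, hp, hq]
  | monomial n a =>
    rw [← C_mul_X_pow_eq_monomial]
    simp only [map_mul, map_pow, aeval_C, aeval_X, am_eq]
    rfl

theorem tr_xx : Transcendental K (xx W) := by
  rw [transcendental_iff]
  intro p hp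
  rw [aeval_xx] at hp
  have h1 : Affine.CoordinateRing.mk W.toAffine (C p) = 0 := by
    apply IsFractionRing.injective W.toAffine.CoordinateRing W.toAffine.FunctionField
    rw [hp, map_zero]
  have h2 : algebraMap K[X] W.toAffine.CoordinateRing p = 0 := h1
  exact (FaithfulSMul.algebraMap_injective K[X] W.toAffine.CoordinateRing) (by rw [h2, map_zero])

theorem gen_xy : IntermediateField.adjoin K {xx W, yy W} = ⊤ := by
  rw [eq_top_iff]
  rintro s -
  obtain ⟨r, d, -, rfl⟩ := IsFractionRing.div_surjective (A := W.toAffine.CoordinateRing) s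
  have hx : xx W ∈ IntermediateField.adjoin K {xx W, yy W} :=
    IntermediateField.subset_adjoin _ _ (Set.mem_insert _ _)
  have hy : yy W ∈ IntermediateField.adjoin K {xx W, yy W} :=
    IntermediateField.subset_adjoin _ _ (Set.mem_insert_of_mem _ rfl)
  have hp : ∀ p : K[X], aeval (xx W) p ∈ IntermediateField.adjoin K {xx W, yy W} := by
    intro p
    have h1 : aeval (xx W) p ∈ Algebra.adjoin K {xx W} := aeval_mem_adjoin_singleton K _
    have h2 : Algebra.adjoin K {xx W} ≤ (IntermediateField.adjoin K {xx W, yy W}).toSubalgebra := by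
      rw [Algebra.adjoin_le_iff]
      rintro _ rfl
      exact hx
    exact h2 h1
  have key : ∀ r : W.toAffine.CoordinateRing, algebraMap _ W.toAffine.FunctionField r ∈
      IntermediateField.adjoin K {xx W, yy W} := by
    intro r
    obtain ⟨p, q, rfl⟩ := Affine.CoordinateRing.exists_smul_basis_eq r
    rw [Affine.CoordinateRing.smul, Affine.CoordinateRing.smul, mul_one, map_add, map_mul,
      ← aeval_xx, ← aeval_xx]
    exact add_mem (hp p) (mul_mem (hp q) hy)
  exact div_mem (key r) (key d)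

/-- The curve `y² + x y = x³ + a`. -/
def stdC (a : K) : WeierstrassCurve K := ⟨1, 0, 0, 0, a⟩

theorem nonempty_cur [IsAlgClosed K] [CharP K 2] [W.IsElliptic] (hj : W.j ≠ 0) :
    Nonempty (Cur K W.toAffine.FunctionField) := by
  set a : K := (W.j)⁻¹ with ha
  have ha0 : a ≠ 0 := inv_ne_zero hj
  obtain ⟨b, hb⟩ := IsAlgClosed.exists_pow_nat_eq a two_pos
  have hb0 : b ≠ 0 := by
    rintro rfl
    rw [zero_pow two_ne_zero] at hb
    exact ha0 hb.symm
  have hnf : (stdC a).IsCharTwoJNeZeroNF := ⟨rfl, rfl, rfl⟩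
  have hell : (stdC a).IsElliptic := by
    constructor
    rw [(stdC a).Δ_of_isCharTwoJNeZeroNF_of_char_two]
    exact isUnit_iff_ne_zero.2 ha0
  have hjj : (stdC a).j = W.j := by
    rw [(stdC a).j_of_isCharTwoJNeZeroNF_of_char_two]
    change 1 / a = _
    rw [ha, one_div, inv_inv]
  obtain ⟨D, hD⟩ := exists_variableChange_of_j_eq W (stdC a) hjj.symm
  rw [variableChange_def] at hD
  have e1 := congrArg WeierstrassCurve.a₁ hD
  have e2 := congrArg WeierstrassCurve.a₂ hD
  have e3 := congrArg WeierstrassCurve.a₃ hD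
  have e4 := congrArg WeierstrassCurve.a₄ hD
  have e6 := congrArg WeierstrassCurve.a₆ hD
  simp only [stdC] at e1 e2 e3 e4 e6
  have hv0 : (↑D.u⁻¹ : K) ≠ 0 := D.u⁻¹.ne_zero
  set v : K := ↑D.u⁻¹ with hv
  let φ := algebraMap K W.toAffine.FunctionField
  have E1 := congrArg φ e1
  have E2 := congrArg φ e2
  have E3 := congrArg φ e3
  have E4 := congrArg φ e4
  have E6 := congrArg φ e6
  simp only [map_add, map_sub, map_mul, map_pow, map_one, map_zero, map_ofNat] at E1 E2 E3 E4 E6
  have hw := wei_eq W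
  have hφv : φ v ≠ 0 := (_root_.map_ne_zero φ).2 hv0
  refine ⟨{
    x := φ v ^ 2 * (xx W - φ D.r)
    y := φ v ^ 3 * (yy W - φ D.s * (xx W - φ D.r) - φ D.t)
    b := b
    b0 := hb0
    eq := ?_
    gen := ?_
    tr := ?_ }⟩
  · have hba : (algebraMap K W.toAffine.FunctionField b) ^ 2 = φ a := by
      rw [← map_pow, hb]
    rw [hba]
    change _ + _ * (yy W) + _ = _ at hw
    linear_combination (φ v) ^ 6 * hw -
      (φ v ^ 2 * (xx W - φ D.r)) * (φ v ^ 3 * (yy W - φ D.s * (xx W - φ D.r) - φ D.t)) * E1 -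
      (φ v ^ 3 * (yy W - φ D.s * (xx W - φ D.r) - φ D.t)) * E3 +
      (φ v ^ 2 * (xx W - φ D.r)) ^ 2 * E2 + (φ v ^ 2 * (xx W - φ D.r)) * E4 + E6
  · rw [eq_top_iff, ← gen_xy W, IntermediateField.adjoin_le_iff]
    set S := IntermediateField.adjoin K {φ v ^ 2 * (xx W - φ D.r),
      φ v ^ 3 * (yy W - φ D.s * (xx W - φ D.r) - φ D.t)} with hS
    have h1 : φ v ^ 2 * (xx W - φ D.r) ∈ S :=
      IntermediateField.subset_adjoin _ _ (Set.mem_insert _ _)
    have h2 : φ v ^ 3 * (yy W - φ D.s * (xx W - φ D.r) - φ D.t) ∈ S :=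
      IntermediateField.subset_adjoin _ _ (Set.mem_insert_of_mem _ rfl)
    have hc : ∀ c : K, φ c ∈ S := fun c => S.algebraMap_mem c
    have hx : xx W ∈ S := by
      have h3 := add_mem (mul_mem (inv_mem (pow_mem (hc v) 2)) h1) (hc D.r)
      have e : (φ v ^ 2)⁻¹ * (φ v ^ 2 * (xx W - φ D.r)) + φ D.r = xx W := by
        field_simp
        ring
      rwa [e] at h3
    rintro _ (rfl | rfl)
    · exact hx
    · have h3 := add_mem (add_mem (mul_mem (inv_mem (pow_mem (hc v) 3)) h2) (hc D.t))
        (mul_mem (hc D.s) (sub_mem hx (hc D.r)))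
      have e : (φ v ^ 3)⁻¹ * (φ v ^ 3 * (yy W - φ D.s * (xx W - φ D.r) - φ D.t)) + φ D.t +
          φ D.s * (xx W - φ D.r) = yy W := by
        field_simp
        ring
      rwa [e] at h3
  · intro h
    apply tr_xx W
    have h3 : IsAlgebraic K (φ (v ^ 2)⁻¹ * (φ v ^ 2 * (xx W - φ D.r)) + φ D.r) :=
      ((isAlgebraic_algebraMap _).mul h).add (isAlgebraic_algebraMap _)
    have e : φ (v ^ 2)⁻¹ * (φ v ^ 2 * (xx W - φ D.r)) + φ D.r = xx W := by
      rw [map_inv₀, map_pow]
      field_simp
      ring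
    rwa [e] at h3

end Pool.Agent.T6.H13.CC
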