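import Pool.Agent.Helper386.D5V.Helper386_FF_Place

/-! Ramification of rational functions on a curve, in terms of its function field `L` over `k`. -/

set_option autoImplicit false

open FF

namespace Pool.Agent.T6.H13.CC

universe u

/-- The multiplicity with which the function `f` takes the value `z` (an element of `k` or `∞`) at
the place `P`: the order of `f - z` if `z` is in `k`, and the order of `1 / f` if `z = ∞`; it is
positive if and only if `f` has the value `z` at `P`, and then it is the ramification index. -/
def mult {k L : Type u} [Field k] [Field L] [Algebra k L] (f : L) : Option k → Place k L → ℤ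
  | none, P => P.ord f⁻¹
  | some c, P => P.ord (f - algebraMap k L c)

/-- The function `f` has ramification type `(3,3,3,3,3)`: there is a set `B` of exactly five points
of the projective line (the branch points) such that the fibre over each point of `B` consists of
one point of ramification index three and of two unramified points, and such that all points over
the points outside of `B` are unramified. -/
def Type33333 {k L : Type u} [Field k] [Field L] [Algebra k L] (f : L) : Prop :=
  ∃ B : Finset (Option k), B.card = 5 ∧
    (∀ z ∈ B, ∃ P Q R : Place k L, P ≠ Q ∧ P ≠ R ∧ Q ≠ R ∧
      mult f z P = 3 ∧ mult f z Q = 1 ∧ mult f z R = 1 ∧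
      ∀ T : Place k L, 0 < mult f z T → T = P ∨ T = Q ∨ T = R) ∧
    (∀ z ∉ B, ∀ T : Place k L, 0 < mult f z T → mult f z T = 1)

end Pool.Agent.T6.H13.CC
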