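import Pool.Agent.T6.H13.CC.Par
import Pool.Agent.T6.H13.CC.Defs

/-! Functions of ramification type `(3,3,3,3,3)`. -/

set_option autoImplicit false
set_option linter.unusedSectionVars false

open Module IntermediateField FF

namespace Pool.Agent.T6.H13.CC

universe u

namespace Cur

variable {k L : Type u} [Field k] [IsAlgClosed k] [Field L] [Algebra k L] (C : Cur k L)
  [CharP L 2]

include C in
theorem no_type (f : L) (hT : Type33333 (k := k) f) : False := by
  classical
  obtain ⟨B, hB5, hB, hnB⟩ := hT
  -- `f` is separating
  have hf : C.der f ≠ 0 := by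
    obtain ⟨z, hz⟩ : B.Nonempty := Finset.card_pos.1 (by omega)
    obtain ⟨P, Q, R, -, -, -, -, hQ, -⟩ := hB z hz
    obtain ⟨t, τ, G⟩ := C.good Q
    cases z with
    | none =>
      have h1 : Q.ord f = -1 := by
        change Q.ord f⁻¹ = 1 at hQ
        rw [Q.ord_inv] at hQ
        omega
      have h0 : f ≠ 0 := by
        rintro rfl
        rw [Q.ord_zero] at h1
        omega
      exact (G.ord_der_odd (m := -1) h0 (by rw [h1]; norm_num)).1
    | some c =>
      have h1 : Q.ord (f - algebraMap k L c) = 1 := hQ
      have h0 : f - algebraMap k L c ≠ 0 := by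
        intro h
        rw [h, Q.ord_zero] at h1
        omega
      have h2 := (G.ord_der_odd (m := 0) h0 (by rw [h1]; norm_num)).1
      rwa [sub_eq_add_neg, C.der_add, ← map_neg, C.der_const, add_zero] at h2
  have hmult : ∀ (z : Option k) (T : Place k L), 0 < mult f z T →
      mult f z T = 1 ∨ (mult f z T = 3 ∧ z ∈ B) := by
    intro z T h
    by_cases hz : z ∈ B
    · obtain ⟨P, Q, R, -, -, -, hP, hQ, hR, hall⟩ := hB z hz
      rcases hall T h with rfl | rfl | rfl
      · exact Or.inr ⟨hP, hz⟩
      · exact Or.inl hQ
      · exact Or.inl hR
    · exact Or.inl (hnB z hz T h)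
  have H : Ram13 (k := k) f := by
    constructor
    · intro P c h
      rcases hmult (some c) P h with h1 | h1
      · exact Or.inl h1
      · exact Or.inr h1.1
    · intro P h
      have h' : 0 < mult f none P := by
        change 0 < P.ord f⁻¹
        rw [P.ord_inv]; omega
      have h2 : mult f none P = - P.ord f := P.ord_inv f
      rcases hmult none P h' with h1 | h1
      · left; omega
      · right; have := h1.1; omega
  have hne : Nonempty (Place k L) := by
    obtain ⟨z, hz⟩ : B.Nonempty := Finset.card_pos.1 (by omega)
    obtain ⟨P, -⟩ := hB z hz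
    exact ⟨P⟩
  choose! p q r hpq hpr hqr hp hq hr hall using hB
  obtain ⟨T, hT1, hT2⟩ := C.poles_der f hf
  let Sf : Finset (Place k L) := (B.erase none).image p
  let T1 : Finset (Place k L) := T.filter fun P => P.ord f = -1
  have hSf : ∀ P, P ∈ Sf ↔ ∃ c : k, P.ord (f - algebraMap k L c) = 3 := by
    intro P
    simp only [Sf, Finset.mem_image, Finset.mem_erase]
    constructor
    · rintro ⟨z, ⟨hz0, hz⟩, rfl⟩
      cases z with
      | none => exact absurd rfl hz0
      | some c => exact ⟨c, hp _ hz⟩
    · rintro ⟨c, hc⟩
      have h1 : 0 < mult f (some c) P := by change 0 < P.ord _; omega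
      have hcB : (some c : Option k) ∈ B := by
        rcases hmult (some c) P h1 with h2 | h2
        · change P.ord (f - algebraMap k L c) = 1 at h2
          omega
        · exact h2.2
      refine ⟨some c, ⟨by simp, hcB⟩, ?_⟩
      rcases hall _ hcB P h1 with h2 | h2 | h2
      · exact h2.symm
      · have h3 := hq _ hcB
        rw [← h2] at h3
        change P.ord (f - algebraMap k L c) = 1 at h3
        omega
      · have h3 := hr _ hcB
        rw [← h2] at h3
        change P.ord (f - algebraMap k L c) = 1 at h3
        omega
  have hT1' : ∀ P, P ∈ T1 ↔ P.ord f = -1 := by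
    intro P
    simp only [T1, Finset.mem_filter, hT1]
    constructor
    · exact fun h => h.2
    · exact fun h => ⟨by omega, h⟩
  have hS : ∀ P, P ∈ Sf ∪ T1 ↔ Odd13 (k := k) f P := by
    intro P
    rw [Finset.mem_union, hSf, hT1', or_comm]
    exact Iff.rfl
  have hdisj : Disjoint Sf T1 := by
    rw [Finset.disjoint_left]
    intro P h1 h2
    obtain ⟨c, hc⟩ := (hSf P).1 h1
    rw [hT1'] at h2
    have hf0 : f ≠ 0 := by
      rintro rfl
      exact hf C.der_zero
    have h3 := sub_ne f hf c
    by_cases hc0 : c = 0
    · subst hc0
      rw [map_zero, sub_zero] at hc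
      omega
    · have h4 := (P.ord_add_eq (f := f) (g := -algebraMap k L c) hf0
        (neg_ne_zero.2 ((map_ne_zero _).2 hc0)) (by rw [P.ord_neg, P.ord_const hc0]; omega)).2
      rw [← sub_eq_add_neg] at h4
      omega
  have hpar := parity (C := C) hf H (Sf ∪ T1) hS
  rw [Finset.card_union_of_disjoint hdisj] at hpar
  have hcardSf : Sf.card = (B.erase none).card := by
    apply Finset.card_image_of_injOn
    intro z hz w hw hzw
    simp only [Finset.coe_erase, Set.mem_sdiff, Finset.mem_coe, Set.mem_singleton_iff] at hz hw
    cases z with
    | none => exact absurd rfl hz.2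
    | some c =>
      cases w with
      | none => exact absurd rfl hw.2
      | some d =>
        by_contra hne
        have hcd : c - d ≠ 0 := sub_ne_zero.2 (fun h => hne (by rw [h]))
        have h1 : (p (some c)).ord (f - algebraMap k L c) = 3 := hp _ hz.1
        have h2 : (p (some d)).ord (f - algebraMap k L d) = 3 := hp _ hw.1
        rw [← hzw] at h2
        have h3 : Near (p (some c)) 3 ((f - algebraMap k L d) - (f - algebraMap k L c)) :=
          Near.sub (Or.inr h2.ge) (Or.inr h1.ge)
        have h4 : (f - algebraMap k L d) - (f - algebraMap k L c) = algebraMap k L (c - d) := by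
          rw [map_sub]; ring
        rw [h4, near_iff ((map_ne_zero _).2 hcd), (p (some c)).ord_const hcd] at h3
        omega
  by_cases hn : (none : Option k) ∈ B
  · have h1 : (B.erase none).card = 4 := by
      rw [Finset.card_erase_of_mem hn, hB5]
    have h2 : T1 = {q none, r none} := by
      ext P
      rw [hT1', Finset.mem_insert, Finset.mem_singleton]
      constructor
      · intro h
        have h' : mult f none P = 1 := by
          change P.ord f⁻¹ = 1
          rw [P.ord_inv]; omega
        rcases hall _ hn P (by omega) with h3 | h3 | h3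
        · rw [h3] at h'
          have := hp _ hn
          omega
        · exact Or.inl h3
        · exact Or.inr h3
      · rintro (rfl | rfl)
        · have h3 : (q none).ord f⁻¹ = 1 := hq _ hn
          rw [(q none).ord_inv] at h3
          omega
        · have h3 : (r none).ord f⁻¹ = 1 := hr _ hn
          rw [(r none).ord_inv] at h3
          omega
    have h3 : T1.card = 2 := by
      rw [h2, Finset.card_pair (hqr _ hn)]
    rw [hcardSf, h1, h3] at hpar
    norm_num at hpar
  · have h1 : (B.erase none).card = 5 := by
      rw [Finset.erase_eq_of_notMem hn, hB5]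
    have h2 : T1 = T := by
      ext P
      rw [hT1', hT1]
      constructor
      · intro h; omega
      · intro h
        have h' : 0 < mult f none P := by
          change 0 < P.ord f⁻¹
          rw [P.ord_inv]; omega
        have h3 : P.ord f⁻¹ = 1 := hnB none hn P h'
        rw [P.ord_inv] at h3
        omega
    have h3 : (T1.card : ℤ) = finrank k⟮f⟯ L := by
      rw [← hT2, ← h2, Finset.sum_congr rfl (fun P hP => by rw [(hT1' P).1 hP])]
      simp
    obtain ⟨z, hz⟩ : B.Nonempty := Finset.card_pos.1 (by omega)
    cases z with
    | none => exact hn hz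
    | some c =>
      have hdc : C.der (f - algebraMap k L c) ≠ 0 := by
        rwa [sub_eq_add_neg, C.der_add, ← map_neg, C.der_const, add_zero]
      obtain ⟨Z, hZ1, -, hZ2⟩ := C.zeros_der (f - algebraMap k L c) hdc
      rw [adj_sub] at hZ2
      have hZ : Z = {p (some c), q (some c), r (some c)} := by
        ext P
        rw [hZ1, Finset.mem_insert, Finset.mem_insert, Finset.mem_singleton]
        constructor
        · exact hall _ hz P
        · rintro (rfl | rfl | rfl)
          · have : (p (some c)).ord (f - algebraMap k L c) = 3 := hp _ hz
            omega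
          · have : (q (some c)).ord (f - algebraMap k L c) = 1 := hq _ hz
            omega
          · have : (r (some c)).ord (f - algebraMap k L c) = 1 := hr _ hz
            omega
      have h4 : (finrank k⟮f⟯ L : ℤ) = 5 := by
        rw [← hZ2, hZ, Finset.sum_insert (by
          rw [Finset.mem_insert, Finset.mem_singleton]
          push Not
          exact ⟨hpq _ hz, hpr _ hz⟩), Finset.sum_pair (hqr _ hz)]
        have e1 : (p (some c)).ord (f - algebraMap k L c) = 3 := hp _ hz
        have e2 : (q (some c)).ord (f - algebraMap k L c) = 1 := hq _ hz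
        have e3 : (r (some c)).ord (f - algebraMap k L c) = 1 := hr _ hz
        rw [e1, e2, e3]; norm_num
      rw [h4] at h3
      have h5 : T1.card = 5 := by exact_mod_cast h3
      rw [hcardSf, h1, h5] at hpar
      norm_num at hpar

end Cur

end Pool.Agent.T6.H13.CC
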