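import Pool.Agent.T6.H13.CC.Sep

/-! The invariant derivation on the function field of `y² + x y = x³ + a` in characteristic two. -/

set_option autoImplicit false
set_option linter.unusedSectionVars false

open Module IntermediateField FF

namespace Pool.Agent.T6.H13.CC

universe u

/-- The function field `L` of `y² + x y = x³ + a`, `a = b² ≠ 0`. -/
structure Cur (k L : Type u) [Field k] [Field L] [Algebra k L] where
  x : L
  y : L
  b : k
  b0 : b ≠ 0
  eq : y ^ 2 + x * y = x ^ 3 + algebraMap k L b ^ 2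
  gen : IntermediateField.adjoin k {x, y} = ⊤
  tr : Transcendental k x

namespace Cur

variable {k L : Type u} [Field k] [IsAlgClosed k] [Field L] [Algebra k L] (C : Cur k L)

/-- the constant `b` in `L` -/
noncomputable def B : L := algebraMap k L C.b

theorem B0 : C.B ≠ 0 := (map_ne_zero _).2 C.b0

theorem eqB : C.y ^ 2 + C.x * C.y = C.x ^ 3 + C.B ^ 2 := C.eq

theorem x0 : C.x ≠ 0 := by
  intro h
  exact C.tr (h ▸ isAlgebraic_zero)

include C in
theorem ess : Algebra.EssFiniteType k L := by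
  classical
  rw [← IntermediateField.fg_top_iff]
  exact ⟨{C.x, C.y}, by simpa using C.gen⟩

variable [CharP L 2]

theorem two0 (L : Type u) [Field L] [CharP L 2] : (2 : L) = 0 := CharTwo.two_eq_zero

theorem sqrt_const (c : k) : ∃ d : k, d ^ 2 = c := IsAlgClosed.exists_pow_nat_eq c two_pos

theorem y_eq : C.y = C.x ^ 2 + C.x * ((C.y + C.B) / C.x) ^ 2 := by
  have h2 := two0 L
  have hx := C.x0
  field_simp
  linear_combination C.eqB - (C.y ^ 2 + C.y * C.B) * h2

theorem decomp (s : L) : ∃ s0 s1 : L, s = s0 ^ 2 + C.x * s1 ^ 2 := by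
  have h2 := two0 L
  let S : IntermediateField k L :=
    { carrier := {s | ∃ s0 s1 : L, s = s0 ^ 2 + C.x * s1 ^ 2}
      mul_mem' := by
        rintro _ _ ⟨s0, s1, rfl⟩ ⟨t0, t1, rfl⟩
        exact ⟨s0 * t0 + C.x * (s1 * t1), s0 * t1 + s1 * t0, by
          linear_combination (-2 * C.x * s0 * s1 * t0 * t1) * h2⟩
      add_mem' := by
        rintro _ _ ⟨s0, s1, rfl⟩ ⟨t0, t1, rfl⟩
        exact ⟨s0 + t0, s1 + t1, by
          linear_combination (- s0 * t0 - C.x * s1 * t1) * h2⟩
      algebraMap_mem' := by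
        intro c
        obtain ⟨d, hd⟩ := sqrt_const c
        exact ⟨algebraMap k L d, 0, by rw [← hd, map_pow]; ring⟩
      inv_mem' := by
        rintro _ ⟨s0, s1, rfl⟩
        by_cases h : s0 ^ 2 + C.x * s1 ^ 2 = 0
        · exact ⟨0, 0, by rw [h]; simp⟩
        · exact ⟨s0 * (s0 ^ 2 + C.x * s1 ^ 2)⁻¹, s1 * (s0 ^ 2 + C.x * s1 ^ 2)⁻¹, by
            field_simp⟩ }
  have h : IntermediateField.adjoin k {C.x, C.y} ≤ S := by
    rw [IntermediateField.adjoin_le_iff]
    rintro _ (rfl | rfl)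
    · exact ⟨0, 1, by ring⟩
    · exact ⟨_, _, C.y_eq⟩
  rw [C.gen] at h
  exact h (IntermediateField.mem_top (x := s))

theorem x_not_sq (z : L) : z ^ 2 ≠ C.x := by
  have := C.ess
  exact not_sq_of_gen (k := k) C.x C.tr C.decomp z

theorem uniq {s0 s1 t0 t1 : L} (h : s0 ^ 2 + C.x * s1 ^ 2 = t0 ^ 2 + C.x * t1 ^ 2) :
    s0 = t0 ∧ s1 = t1 := by
  have h2 := two0 L
  have h1 : s1 = t1 := by
    by_contra hne
    have hd : s1 - t1 ≠ 0 := sub_ne_zero.2 hne
    apply C.x_not_sq ((s0 - t0) / (s1 - t1))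
    rw [div_pow, div_eq_iff (pow_ne_zero 2 hd)]
    linear_combination h + (-s0 * t0 + t0 ^ 2 - C.x * s1 ^ 2 + C.x * s1 * t1) * h2
  subst h1
  refine ⟨?_, rfl⟩
  have h3 : (s0 - t0) ^ 2 = 0 := by
    linear_combination h + (t0 ^ 2 - s0 * t0) * h2
  exact sub_eq_zero.1 (pow_eq_zero_iff two_ne_zero |>.1 h3)

/-- The invariant derivation. -/
noncomputable def der (s : L) : L := C.x * (C.decomp s).choose_spec.choose ^ 2

/-- The inverse of the square of the invariant projection to the squares. -/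
noncomputable def kap (s : L) : L := (C.decomp s).choose

theorem kap_sq (s : L) : C.kap s ^ 2 = s + C.der s := by
  have h2 := two0 L
  have h := (C.decomp s).choose_spec.choose_spec
  change s = C.kap s ^ 2 + C.der s at h
  linear_combination (-1 : L) * h + s * h2 - s * h2 - C.der s * h2

theorem dec_spec (s : L) : ∃ s1, s = C.kap s ^ 2 + C.x * s1 ^ 2 ∧ C.der s = C.x * s1 ^ 2 :=
  ⟨_, (C.decomp s).choose_spec.choose_spec, rfl⟩

theorem der_of {s s0 s1 : L} (h : s = s0 ^ 2 + C.x * s1 ^ 2) : C.der s = C.x * s1 ^ 2 ∧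
    C.kap s = s0 := by
  obtain ⟨t1, h1, h2⟩ := C.dec_spec s
  obtain ⟨h3, h4⟩ := C.uniq (h.symm.trans h1)
  exact ⟨by rw [h2, h4], h3.symm⟩

theorem der_add (s t : L) : C.der (s + t) = C.der s + C.der t := by
  have h2 := two0 L
  obtain ⟨s1, hs, hs'⟩ := C.dec_spec s
  obtain ⟨t1, ht, ht'⟩ := C.dec_spec t
  rw [hs', ht']
  rw [(C.der_of (s0 := C.kap s + C.kap t) (s1 := s1 + t1) (s := s + t) (by
    linear_combination hs + ht - (C.kap s * C.kap t + C.x * s1 * t1) * h2)).1]
  linear_combination (C.x * s1 * t1) * h2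

theorem der_mul (s t : L) : C.der (s * t) = s * C.der t + t * C.der s := by
  have h2 := two0 L
  obtain ⟨s1, hs, hs'⟩ := C.dec_spec s
  obtain ⟨t1, ht, ht'⟩ := C.dec_spec t
  rw [hs', ht']
  rw [(C.der_of (s0 := C.kap s * C.kap t + C.x * (s1 * t1))
    (s1 := C.kap s * t1 + s1 * C.kap t) (s := s * t) (by
    rw [hs, ht]
    set p := C.kap s
    set q := C.kap t
    have h3 : C.kap (p ^ 2 + C.x * s1 ^ 2) = p := (C.der_of rfl).2
    have h4 : C.kap (q ^ 2 + C.x * t1 ^ 2) = q := (C.der_of rfl).2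
    rw [h3, h4]
    linear_combination (-2 * C.x * p * s1 * q * t1) * h2)).1]
  linear_combination (-C.x * t1 ^ 2) * hs - C.x * s1 ^ 2 * ht +
    (C.x * C.kap s * t1 * s1 * C.kap t - C.x ^ 2 * s1 ^ 2 * t1 ^ 2) * h2

theorem der_sq_mul (z s : L) : C.der (z ^ 2 * s) = z ^ 2 * C.der s := by
  obtain ⟨s1, hs, hs'⟩ := C.dec_spec s
  rw [hs', (C.der_of (s0 := z * C.kap s) (s1 := z * s1) (s := z ^ 2 * s) (by
    linear_combination z ^ 2 * hs)).1]
  ring

theorem der_sq (z : L) : C.der (z ^ 2) = 0 := by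
  rw [(C.der_of (s0 := z) (s1 := 0) (s := z ^ 2) (by ring)).1]
  ring

theorem der_zero : C.der 0 = 0 := by
  have := C.der_sq 0
  simpa using this

theorem der_one : C.der 1 = 0 := by
  have := C.der_sq 1
  simpa using this

theorem der_const (c : k) : C.der (algebraMap k L c) = 0 := by
  obtain ⟨d, rfl⟩ := sqrt_const c
  rw [map_pow]
  exact C.der_sq _

theorem der_der (s : L) : C.der (C.der s) = C.der s := by
  obtain ⟨s1, hs, hs'⟩ := C.dec_spec s
  rw [hs', (C.der_of (s0 := 0) (s1 := s1) (s := C.x * s1 ^ 2) (by ring)).1]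

theorem der_x : C.der C.x = C.x := by
  rw [(C.der_of (s0 := 0) (s1 := 1) (s := C.x) (by ring)).1]
  ring

theorem der_y : C.der C.y = C.x ^ 2 + C.y := by
  have h2 := two0 L
  have hx := C.x0
  rw [(C.der_of C.y_eq).1]
  field_simp
  linear_combination C.eqB + (C.y * C.B + C.B ^ 2 - C.x * C.y) * h2

theorem der_div (s t : L) (ht : t ≠ 0) : C.der (s / t) = (s * C.der t + t * C.der s) / t ^ 2 := by
  have h1 : s / t = (t⁻¹) ^ 2 * (s * t) := by field_simp
  rw [h1, C.der_sq_mul, C.der_mul]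
  field_simp

theorem der_log (g : L) (hg : g ≠ 0) :
    C.der (C.der g / g) = C.der g / g + (C.der g / g) ^ 2 := by
  rw [C.der_div _ _ hg, C.der_der]
  field_simp
  ring

/-- The function `(y + b) / x`. -/
noncomputable def eta : L := (C.y + C.B) / C.x

theorem eta_sq : C.eta ^ 2 = C.x + C.y / C.x := by
  have h2 := two0 L
  have hx := C.x0
  unfold eta
  field_simp
  linear_combination C.eqB + (C.y * C.B + C.B ^ 2 - C.x * C.y) * h2

theorem der_eta : C.der C.eta = C.eta + C.eta ^ 2 := by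
  have h2 := two0 L
  have hx := C.x0
  have h1 : C.der (C.y + C.B) = C.x ^ 2 + C.y := by
    rw [C.der_add, C.der_y, B, C.der_const, add_zero]
  rw [eta, C.der_div _ _ hx, h1, C.der_x]
  have h3 := C.eta_sq
  rw [eta] at h3
  rw [h3]
  field_simp

end Cur

end Pool.Agent.T6.H13.CC
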