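import Pool.Agent.T6.H13.CC.Pla

/-! Local analysis of a function at a place. -/

set_option autoImplicit false
set_option linter.unusedSectionVars false

open Module IntermediateField FF

namespace Pool.Agent.T6.H13.CC

universe u

theorem sq_inj {L : Type u} [Field L] [CharP L 2] {a b : L} (h : a ^ 2 = b ^ 2) : a = b := by
  have h2 : (2 : L) = 0 := CharTwo.two_eq_zero
  have h3 : (a - b) ^ 2 = 0 := by linear_combination h + (b ^ 2 - a * b) * h2
  exact sub_eq_zero.1 (pow_eq_zero_iff two_ne_zero |>.1 h3)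

namespace Cur

variable {k L : Type u} [Field k] [IsAlgClosed k] [Field L] [Algebra k L] {C : Cur k L}
  [CharP L 2] {P : Place k L} {t τ : L}

theorem near_sqrt {m : ℤ} {s : L} (h : Near P (2 * m) (s ^ 2)) : Near P m s := by
  by_cases hs : s = 0
  · exact Or.inl hs
  rw [near_iff (pow_ne_zero 2 hs), P.ord_pow] at h
  push_cast at h
  exact Or.inr (by omega)

namespace Good

theorem t0 (G : C.Good P t τ) : t ≠ 0 := by
  rintro rfl
  have := G.ht
  rw [P.ord_zero] at this
  omega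

theorem dt0 (G : C.Good P t τ) : C.der t ≠ 0 := by
  rw [G.dt]
  exact mul_ne_zero C.x0 (pow_ne_zero 2 G.τ0)

theorem even_x (G : C.Good P t τ) : Even (P.ord C.x) := by
  have h := G.ord
  rw [G.dt, P.ord_mul C.x0 (pow_ne_zero 2 G.τ0), P.ord_pow] at h
  push_cast at h
  exact ⟨- P.ord τ, by omega⟩

theorem even_der (G : C.Good P t τ) {s : L} (hs : C.der s ≠ 0) : Even (P.ord (C.der s)) := by
  obtain ⟨s1, -, h1⟩ := C.dec_spec s
  have hs1 : s1 ≠ 0 := by
    rintro rfl
    apply hs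
    rw [h1]; ring
  rw [h1, P.ord_mul C.x0 (pow_ne_zero 2 hs1), P.ord_pow]
  exact G.even_x.add (by push_cast; exact even_two_mul _)

theorem dec_t (G : C.Good P t τ) (s : L) :
    ∃ s0 s1, s = s0 ^ 2 + t * s1 ^ 2 ∧ C.der s = s1 ^ 2 * C.der t := by
  have h2 := two0 L
  have hτ := G.τ0
  obtain ⟨b, h1, h1'⟩ := C.dec_spec s
  have h3 := C.kap_sq t
  have h4 := G.dt
  refine ⟨C.kap s + C.kap t * b / τ, b / τ, ?_, ?_⟩
  · generalize C.kap s = p at *
    generalize C.kap t = q at *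
    have hx : C.x = (q ^ 2 - t) / τ ^ 2 := by
      rw [h3, h4]; field_simp; ring
    rw [h1, hx]
    field_simp
    linear_combination (- t * b ^ 2 - p * τ * q * b) * h2
  · rw [h1', h4]
    field_simp

theorem split_even (G : C.Good P t τ) {m : ℤ} {s0 s1 : L}
    (h : Near P (2 * m) (s0 ^ 2 + t * s1 ^ 2)) : Near P m s0 ∧ Near P m s1 := by
  by_cases h0 : s0 = 0
  · subst h0
    refine ⟨Or.inl rfl, ?_⟩
    by_cases h1 : s1 = 0
    · exact Or.inl h1
    · rw [zero_pow two_ne_zero, zero_add, near_iff (mul_ne_zero G.t0 (pow_ne_zero 2 h1)),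
        P.ord_mul G.t0 (pow_ne_zero 2 h1), P.ord_pow, G.ht] at h
      push_cast at h
      exact Or.inr (by omega)
  by_cases h1 : s1 = 0
  · subst h1
    refine ⟨?_, Or.inl rfl⟩
    rw [zero_pow two_ne_zero, mul_zero, add_zero] at h
    exact near_sqrt h
  have ho0 : P.ord (s0 ^ 2) = 2 * P.ord s0 := by rw [P.ord_pow]; push_cast; ring
  have ho1 : P.ord (t * s1 ^ 2) = 1 + 2 * P.ord s1 := by
    rw [P.ord_mul G.t0 (pow_ne_zero 2 h1), P.ord_pow, G.ht]; push_cast; ring
  rcases lt_or_ge (P.ord (s0 ^ 2)) (P.ord (t * s1 ^ 2)) with hlt | hge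
  · obtain ⟨h3, h4⟩ := P.ord_add_eq (pow_ne_zero 2 h0) (mul_ne_zero G.t0 (pow_ne_zero 2 h1)) hlt
    rw [near_iff h3, h4] at h
    exact ⟨Or.inr (by omega), Or.inr (by omega)⟩
  · obtain ⟨h3, h4⟩ := P.ord_add_eq (mul_ne_zero G.t0 (pow_ne_zero 2 h1)) (pow_ne_zero 2 h0)
      (by omega)
    rw [add_comm, near_iff h3, h4] at h
    exact ⟨Or.inr (by omega), Or.inr (by omega)⟩

theorem split_odd (G : C.Good P t τ) {m : ℤ} {s0 s1 : L}
    (h0 : s0 ^ 2 + t * s1 ^ 2 ≠ 0) (h : P.ord (s0 ^ 2 + t * s1 ^ 2) = 2 * m + 1) :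
    Near P (m + 1) s0 ∧ s1 ≠ 0 ∧ P.ord s1 = m := by
  have hs1 : s1 ≠ 0 := by
    rintro rfl
    rw [zero_pow two_ne_zero, mul_zero, add_zero, P.ord_pow] at h
    push_cast at h
    omega
  have ho1 : P.ord (t * s1 ^ 2) = 1 + 2 * P.ord s1 := by
    rw [P.ord_mul G.t0 (pow_ne_zero 2 hs1), P.ord_pow, G.ht]; push_cast; ring
  by_cases hs0 : s0 = 0
  · subst hs0
    rw [zero_pow two_ne_zero, zero_add, ho1] at h
    exact ⟨Or.inl rfl, hs1, by omega⟩
  have ho0 : P.ord (s0 ^ 2) = 2 * P.ord s0 := by rw [P.ord_pow]; push_cast; ring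
  rcases lt_or_ge (P.ord (s0 ^ 2)) (P.ord (t * s1 ^ 2)) with hlt | hge
  · obtain ⟨h3, h4⟩ := P.ord_add_eq (pow_ne_zero 2 hs0) (mul_ne_zero G.t0 (pow_ne_zero 2 hs1)) hlt
    omega
  · obtain ⟨h3, h4⟩ := P.ord_add_eq (mul_ne_zero G.t0 (pow_ne_zero 2 hs1)) (pow_ne_zero 2 hs0)
      (by omega)
    rw [add_comm] at h4
    exact ⟨Or.inr (by omega), hs1, by omega⟩

theorem near_der_even (G : C.Good P t τ) {m : ℤ} {s : L} (h : Near P (2 * m) s) :
    Near P (2 * m) (C.der s) := by
  obtain ⟨s0, s1, h1, h2⟩ := G.dec_t s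
  rw [h1] at h
  rw [h2]
  have := (G.split_even h).2.sq
  exact this.mul' (show Near P 0 (C.der t) from Or.inr G.ord.ge) (by omega)

theorem near_der (G : C.Good P t τ) {n : ℤ} {s : L} (h : Near P n s) :
    Near P (n - 1) (C.der s) := by
  rcases Int.even_or_odd' n with ⟨m, rfl | rfl⟩
  · exact (G.near_der_even h).mono (by omega)
  · exact (G.near_der_even (m := m) (h.mono (by omega))).mono (by omega)

theorem ord_der_odd (G : C.Good P t τ) {m : ℤ} {s : L} (hs : s ≠ 0) (h : P.ord s = 2 * m + 1) :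
    C.der s ≠ 0 ∧ P.ord (C.der s) = 2 * m := by
  obtain ⟨s0, s1, h1, h2⟩ := G.dec_t s
  rw [h1] at hs h
  obtain ⟨-, h3, h4⟩ := G.split_odd hs h
  rw [h2]
  refine ⟨mul_ne_zero (pow_ne_zero 2 h3) G.dt0, ?_⟩
  rw [P.ord_mul (pow_ne_zero 2 h3) G.dt0, P.ord_pow, G.ord, h4]
  push_cast; ring

/-- The general computation. -/
theorem comp (G : C.Good P t τ) {f A u g : L} (hf : f = A ^ 2 + t * u ^ 2)
    (hd : C.der f = C.x * g ^ 2) (hu : u ≠ 0) :
    C.der f = u ^ 2 * C.der t ∧
    C.der g / g + C.eta = C.der u / u + (C.der τ / τ + C.eta) ∧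
    C.der (C.kap f) ^ 2 / C.der f =
      (C.der A / u + C.der (C.kap t) + C.kap t * (C.der u / u)) ^ 2 / C.der t := by
  have h2 := two0 L
  have hτ := G.τ0
  have hdt := G.dt0
  have h1 : C.der f = u ^ 2 * C.der t := by
    rw [hf, C.der_add, C.der_sq, zero_add, mul_comm, C.der_sq_mul]
  have hg : g = u * τ := by
    apply sq_inj
    have h3 : C.x * g ^ 2 = C.x * (u * τ) ^ 2 := by
      rw [← hd, h1, G.dt]; ring
    exact mul_left_cancel₀ C.x0 h3
  have hk : C.kap f = A + u * C.kap t := by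
    apply sq_inj
    rw [C.kap_sq, h1, hf]
    linear_combination (- u ^ 2) * C.kap_sq t - (A * u * C.kap t) * h2
  refine ⟨h1, ?_, ?_⟩
  · rw [hg, C.der_mul]
    field_simp
    ring
  · rw [hk, h1, C.der_add, C.der_mul]
    field_simp
    ring

theorem even_case (G : C.Good P t τ) {f A u g : L} (hf : f = A ^ 2 + t * u ^ 2)
    (hd : C.der f = C.x * g ^ 2) (hu : u ≠ 0) {m : ℤ} (hm : P.ord u = 2 * m)
    (hA : Near P (2 * m) (C.der A)) :
    Near P 0 (C.der g / g + C.eta) ∧ Near P 0 (C.der (C.kap f) ^ 2 / C.der f) ∧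
      P.ord (C.der f) = 4 * m := by
  obtain ⟨h1, h2, h3⟩ := G.comp hf hd hu
  have hθ : Near P 0 (C.der u / u) :=
    ((G.near_der_even (m := m) (Or.inr hm.ge)).div hu).mono (by omega)
  have hκ : Near P 0 (C.kap t) := by
    apply near_sqrt
    rw [C.kap_sq]
    exact (show Near P (2 * 0) t from Or.inr (by rw [G.ht]; norm_num)).add
      (Or.inr (by rw [G.ord]; norm_num))
  have hdκ : Near P 0 (C.der (C.kap t)) := by
    simpa using G.near_der_even (m := 0) (by simpa using hκ)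
  refine ⟨?_, ?_, ?_⟩
  · rw [h2]; exact hθ.add G.reg
  · rw [h3]
    have h4 : Near P 0 (C.der A / u + C.der (C.kap t) + C.kap t * (C.der u / u)) :=
      (((hA.div hu).mono (by omega)).add hdκ).add (by simpa using hκ.mul hθ)
    exact (h4.sq.div G.dt0).mono (by rw [G.ord]; norm_num)
  · rw [h1, P.ord_mul (pow_ne_zero 2 hu) G.dt0, P.ord_pow, G.ord, hm]
    push_cast; ring

theorem odd_case (G : C.Good P t τ) {f A u g : L} (hf : f = A ^ 2 + t * u ^ 2)
    (hd : C.der f = C.x * g ^ 2) (hu : u ≠ 0) {m : ℤ} (hm : P.ord u = 2 * m + 1)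
    (hA : Near P (2 * m + 2) (C.der A)) :
    P.ord (C.der g / g + C.eta) = -1 ∧
      Near P 0 (C.der (C.kap f) ^ 2 / C.der f + (C.der g / g + C.eta) +
        (C.der g / g + C.eta) ^ 2) := by
  have h20 := two0 L
  obtain ⟨h1, h2, h3⟩ := G.comp hf hd hu
  have ht0 := G.t0
  have hdt0 := G.dt0
  obtain ⟨hdu0, hdu⟩ := G.ord_der_odd hu hm
  have hθ0 : C.der u / u ≠ 0 := div_ne_zero hdu0 hu
  have hθ : P.ord (C.der u / u) = -1 := by
    rw [P.ord_div hdu0 hu]; omega
  have hκ : Near P 0 (C.kap t) := by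
    apply near_sqrt
    rw [C.kap_sq]
    exact (show Near P (2 * 0) t from Or.inr (by rw [G.ht]; norm_num)).add
      (Or.inr (by rw [G.ord]; norm_num))
  have hdκ : Near P 0 (C.der (C.kap t)) := by
    simpa using G.near_der_even (m := 0) (by simpa using hκ)
  have hr := G.reg
  constructor
  · rw [h2]
    by_cases hr0 : C.der τ / τ + C.eta = 0
    · rw [hr0, add_zero, hθ]
    · rw [near_iff hr0] at hr
      rw [(P.ord_add_eq hθ0 hr0 (by omega)).2, hθ]
  · -- the quotient `v = u / t`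
    have hv0 : u / t ≠ 0 := div_ne_zero hu ht0
    have hv : P.ord (u / t) = 2 * m := by rw [P.ord_div hu ht0, G.ht]; omega
    have hdv : Near P 0 (C.der (u / t) / (u / t)) :=
      ((G.near_der_even (m := m) (Or.inr hv.ge)).div hv0).mono (by omega)
    have hθv : C.der u / u = C.der (u / t) / (u / t) + C.der t / t := by
      have e : C.der u = t * C.der (u / t) + (u / t) * C.der t := by
        rw [← C.der_mul, mul_div_cancel₀ _ ht0]
      rw [e]
      field_simp
    have hq : Near P 1 (C.der u / u * t / C.der t + 1) := by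
      have e : C.der u / u * t / C.der t + 1 =
          t * (C.der (u / t) / (u / t)) / C.der t + 2 := by
        rw [hθv]
        field_simp
        ring
      rw [e, h20, add_zero]
      have h4 : Near P 1 (t * (C.der (u / t) / (u / t))) :=
        (show Near P 1 t from Or.inr G.ht.ge).mul' hdv (by norm_num)
      exact (h4.div hdt0).mono (by rw [G.ord]; norm_num)
    have ha : Near P 1 (C.der A / u) := (hA.div hu).mono (by omega)
    rw [h2, h3]
    generalize C.der τ / τ + C.eta = r at hr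
    generalize C.der (C.kap t) = b at hdκ
    generalize C.der A / u = a at ha
    have hκsq := C.kap_sq t
    have hθn : Near P (-1) (C.der u / u) := Or.inr hθ.ge
    generalize C.der u / u = θ at hq hθn
    generalize C.kap t = κ at hκsq hκ
    have hdtn := G.ord
    generalize C.der t = δ at hq hdt0 hκsq hdtn
    have e : (a + b + κ * θ) ^ 2 / δ + (θ + r) + (θ + r) ^ 2 =
        a ^ 2 / δ + b ^ 2 / δ + θ * (θ * t / δ + 1) + (r + r ^ 2) := by
      have e1 : κ ^ 2 = t + δ := hκsq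
      field_simp
      linear_combination θ ^ 2 * e1 + (a * b + a * κ * θ + b * κ * θ + δ * θ ^ 2 + δ * θ * r) * h20
    rw [e]
    refine Near.add (Near.add (Near.add ?_ ?_) ?_) ?_
    · exact (ha.sq.div hdt0).mono (by rw [hdtn]; norm_num)
    · exact (hdκ.sq.div hdt0).mono (by rw [hdtn]; norm_num)
    · exact hθn.mul' hq (by norm_num)
    · exact hr.add (by simpa using hr.sq)

end Good

end Cur

end Pool.Agent.T6.H13.CC
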