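import Pool.Agent.T6.H13.CC.Zer

/-! Orders at a place. -/

set_option autoImplicit false
set_option linter.unusedSectionVars false

open Module IntermediateField FF Polynomial

namespace Pool.Agent.T6.H13.CC

universe u

variable {k L : Type u} [Field k] [Field L] [Algebra k L] (P : Place k L)

/-- `s` vanishes to order at least `n` at `P`. -/
def Near (n : ℤ) (s : L) : Prop := s = 0 ∨ n ≤ P.ord s

variable {P}

theorem near_zero (n : ℤ) : Near P n (0 : L) := Or.inl rfl

theorem near_iff {n : ℤ} {s : L} (hs : s ≠ 0) : Near P n s ↔ n ≤ P.ord s := by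
  simp [Near, hs]

theorem near_reg {s : L} : Near P 0 s ↔ P.Reg s := Iff.rfl

theorem Near.mono {m n : ℤ} {s : L} (h : Near P n s) (hmn : m ≤ n) : Near P m s := by
  rcases h with h | h
  · exact Or.inl h
  · exact Or.inr (hmn.trans h)

theorem Near.add {n : ℤ} {s t : L} (hs : Near P n s) (ht : Near P n t) : Near P n (s + t) := by
  rcases hs with rfl | hs
  · rwa [zero_add]
  rcases ht with rfl | ht
  · rw [add_zero]; exact Or.inr hs
  by_cases hs0 : s = 0
  · rw [hs0, zero_add]; exact Or.inr ht
  by_cases ht0 : t = 0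
  · rw [ht0, add_zero]; exact Or.inr hs
  by_cases h : s + t = 0
  · exact Or.inl h
  · exact Or.inr ((le_min hs ht).trans (P.ord_add hs0 ht0 h))

theorem Near.neg {n : ℤ} {s : L} (hs : Near P n s) : Near P n (-s) := by
  rcases hs with rfl | hs
  · left; simp
  · right; rwa [P.ord_neg]

theorem Near.sub {n : ℤ} {s t : L} (hs : Near P n s) (ht : Near P n t) : Near P n (s - t) := by
  rw [sub_eq_add_neg]; exact hs.add ht.neg

theorem Near.mul {m n : ℤ} {s t : L} (hs : Near P m s) (ht : Near P n t) :
    Near P (m + n) (s * t) := by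
  rcases hs with rfl | hs
  · left; simp
  rcases ht with rfl | ht
  · left; simp
  by_cases hs0 : s = 0
  · left; simp [hs0]
  by_cases ht0 : t = 0
  · left; simp [ht0]
  right
  rw [P.ord_mul hs0 ht0]; omega

theorem Near.mul' {m n l : ℤ} {s t : L} (hs : Near P m s) (ht : Near P n t) (h : l ≤ m + n) :
    Near P l (s * t) := (hs.mul ht).mono h

theorem Near.sq {n : ℤ} {s : L} (hs : Near P n s) : Near P (2 * n) (s ^ 2) := by
  rw [pow_two, two_mul]; exact hs.mul hs

theorem Near.pow {s : L} (hs : Near P 0 s) (n : ℕ) : Near P 0 (s ^ n) := by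
  induction n with
  | zero => rw [pow_zero]; exact P.reg_one
  | succ n ih => rw [pow_succ]; simpa using ih.mul hs

theorem near_const (c : k) : Near P 0 (algebraMap k L c) := P.reg_const c

/-- division by an element of given order -/
theorem Near.div {m : ℤ} {s t : L} (hs : Near P m s) (ht : t ≠ 0) :
    Near P (m - P.ord t) (s / t) := by
  rcases hs with rfl | hs
  · left; simp
  by_cases hs0 : s = 0
  · left; simp [hs0]
  right
  rw [P.ord_div hs0 ht]; omega

/-- approximation by polynomials in `U` -/
def App (P : Place k L) (U : L) (n : ℤ) (r : L) : Prop := ∃ p : k[X], Near P n (r - aeval U p)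

theorem near_aeval {U : L} (hU : Near P 0 U) (p : k[X]) : Near P 0 (aeval U p) := by
  induction p using Polynomial.induction_on' with
  | add p q hp hq => rw [map_add]; exact hp.add hq
  | monomial n a =>
    rw [aeval_monomial]
    simpa using (near_const a).mul (hU.pow n)

theorem App.near {U r : L} {n : ℤ} (hU : Near P 0 U) (hn : 0 ≤ n) (h : App P U n r) :
    Near P 0 r := by
  obtain ⟨p, hp⟩ := h
  have := (hp.mono hn).add (near_aeval hU p)
  rwa [sub_add_cancel] at this

theorem App.add {U r s : L} {n : ℤ} (hr : App P U n r) (hs : App P U n s) : App P U n (r + s) := by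
  obtain ⟨p, hp⟩ := hr
  obtain ⟨q, hq⟩ := hs
  refine ⟨p + q, ?_⟩
  rw [map_add, add_sub_add_comm]
  exact hp.add hq

theorem App.mul {U r s : L} {n : ℤ} (hU : Near P 0 U) (hn : 0 ≤ n) (hr : App P U n r)
    (hs : App P U n s) : App P U n (r * s) := by
  have hs' := hs.near hU hn
  obtain ⟨p, hp⟩ := hr
  obtain ⟨q, hq⟩ := hs
  refine ⟨p * q, ?_⟩
  rw [map_mul]
  have h : r * s - aeval U p * aeval U q = (r - aeval U p) * s + aeval U p * (s - aeval U q) := by
    ring
  rw [h]
  exact (hp.mul' hs' (by omega)).add ((near_aeval hU p).mul' hq (by omega))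

theorem app_aeval {U : L} (n : ℤ) (p : k[X]) : App P U n (aeval U p) :=
  ⟨p, by rw [sub_self]; exact near_zero n⟩

theorem app_const {U : L} (n : ℤ) (c : k) : App P U n (algebraMap k L c) := by
  simpa using app_aeval (P := P) (U := U) n (C c)

theorem app_self {U : L} (n : ℤ) : App P U n U := by
  simpa using app_aeval (P := P) (U := U) n X

/-- **Smooth points.** -/
theorem app_all {U V W : L} {c : k} (hc : c ≠ 0) (hU : Near P 1 U) (hV : Near P 1 V)
    (hW : Near P 1 W) (hWV : ∀ n : ℕ, App P U n V → App P U n W) (p0 : k[X])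
    (h : V * (algebraMap k L c + W) = aeval U p0) (n : ℕ) : App P U n V := by
  have hU0 := hU.mono zero_le_one
  have key : ∀ n : ℕ, 1 ≤ n → App P U n V := by
    intro n hn
    induction n, hn using Nat.le_induction with
    | base => exact ⟨0, by simpa using hV⟩
    | succ n hn ih =>
      obtain ⟨w, hw⟩ := hWV n ih
      obtain ⟨v, hv⟩ := ih
      have hn' : (1 : ℤ) ≤ n := by exact_mod_cast hn
      have hw1 : Near P 1 (aeval U w) := by
        have := hW.sub (hw.mono hn')
        rwa [sub_sub_cancel] at this
      refine ⟨C c⁻¹ * (p0 - w * v), ?_⟩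
      have hc' : algebraMap k L c ≠ 0 := (_root_.map_ne_zero _).2 hc
      have e : V - aeval U (C c⁻¹ * (p0 - w * v)) =
          - (algebraMap k L c⁻¹ * ((W - aeval U w) * V + aeval U w * (V - aeval U v))) := by
        rw [map_mul, aeval_C, map_sub, map_mul, ← h, map_inv₀]
        field_simp
        ring
      rw [e]
      rw [Nat.cast_succ]
      refine Near.neg ?_
      have e1 : Near P ((n : ℤ) + 1) ((W - aeval U w) * V + aeval U w * (V - aeval U v)) :=
        (hw.mul' hV le_rfl).add (hw1.mul' hv (by omega))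
      exact (near_const (P := P) c⁻¹).mul' e1 (by omega)
  rcases Nat.eq_zero_or_pos n with rfl | hn
  · exact ⟨0, by simpa using hV.mono (by norm_num)⟩
  · exact key n hn

theorem app_adjoin {U V : L} (hU : Near P 0 U) (h : ∀ n : ℕ, App P U n V) (r : L)
    (hr : r ∈ Algebra.adjoin k {U, V}) (n : ℕ) : App P U n r := by
  induction hr using Algebra.adjoin_induction with
  | mem z hz =>
    rcases hz with rfl | hz
    · exact app_self _
    · rw [Set.mem_singleton_iff] at hz
      rw [hz]; exact h n
  | algebraMap c => exact app_const _ c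
  | add x y _ _ hx hy => exact hx.add hy
  | mul x y _ _ hx hy => exact hx.mul hU (by positivity) hy

theorem ord_aeval {U : L} (hU0 : U ≠ 0) (hU : 0 < P.ord U) (p : k[X]) (hp : p ≠ 0) :
    aeval U p ≠ 0 ∧ P.ord U ∣ P.ord (aeval U p) := by
  induction hd : p.natDegree using Nat.strong_induction_on generalizing p with
  | _ d ih =>
    by_cases h0 : p.coeff 0 = 0
    · have hpe : p = p.divX * X := by
        have := divX_mul_X_add p
        rw [h0, C_0, add_zero] at this
        exact this.symm
      have hq : p.divX ≠ 0 := by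
        intro h
        rw [h, zero_mul] at hpe
        exact hp hpe
      have hdeg : p.divX.natDegree < d := by
        have h1 : p.natDegree = p.divX.natDegree + 1 := by
          conv_lhs => rw [hpe]
          exact natDegree_mul_X hq
        omega
      obtain ⟨h1, h2⟩ := ih _ hdeg p.divX hq rfl
      rw [hpe, map_mul, aeval_X]
      exact ⟨mul_ne_zero h1 hU0, by rw [P.ord_mul h1 hU0]; exact dvd_add h2 dvd_rfl⟩
    · have hpe : aeval U p = algebraMap k L (p.coeff 0) + U * aeval U p.divX := by
        conv_lhs => rw [← divX_mul_X_add p]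
        simp
        ring
      have hc : algebraMap k L (p.coeff 0) ≠ 0 := (_root_.map_ne_zero _).2 h0
      have hoc : P.ord (algebraMap k L (p.coeff 0)) = 0 := P.ord_const h0
      by_cases hz : U * aeval U p.divX = 0
      · rw [hpe, hz, add_zero]
        exact ⟨hc, by rw [hoc]; exact dvd_zero _⟩
      · have h1 : 0 < P.ord (U * aeval U p.divX) := by
          have h2 : Near P 1 (U * aeval U p.divX) := by
            refine (show Near P 1 U from Or.inr hU).mul' (near_aeval (Or.inr hU.le) _) (by omega)
          have := (near_iff hz).1 h2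
          omega
        obtain ⟨h3, h4⟩ := P.ord_add_eq hc hz (by rw [hoc]; exact h1)
        rw [hpe]
        exact ⟨h3, by rw [h4, hoc]; exact dvd_zero _⟩

theorem uniformizer_of {U V : L} (hU0 : U ≠ 0) (hU : 0 < P.ord U)
    (h : ∀ n : ℕ, App P U n V) (hgen : IntermediateField.adjoin k {U, V} = ⊤) : P.ord U = 1 := by
  have h1 : ∀ r ∈ Algebra.adjoin k {U, V}, r ≠ 0 → P.ord U ∣ P.ord r := by
    intro r hr hr0
    obtain ⟨n, hn⟩ : ∃ n : ℕ, P.ord r < n := ⟨(P.ord r).toNat + 1, by omega⟩
    obtain ⟨p, hp⟩ := app_adjoin (Or.inr hU.le) h r hr n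
    have hp0 : aeval U p ≠ 0 := by
      intro h0
      rw [h0, sub_zero, near_iff hr0] at hp
      omega
    have hpne : p ≠ 0 := by
      rintro rfl
      exact hp0 (map_zero _)
    have hord : P.ord r = P.ord (aeval U p) := by
      by_cases hz : r - aeval U p = 0
      · rw [sub_eq_zero.1 hz]
      · rw [near_iff hz] at hp
        have h2 := (P.ord_add_eq (f := r) (g := -(r - aeval U p)) hr0 (neg_ne_zero.2 hz)
          (by rw [P.ord_neg]; omega)).2
        rw [← h2]
        congr 1
        ring
    rw [hord]
    exact (ord_aeval hU0 hU p hpne).2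
  obtain ⟨t, ht0, ht⟩ := P.surj
  have htm : t ∈ IntermediateField.adjoin k {U, V} := by rw [hgen]; exact IntermediateField.mem_top
  rw [IntermediateField.mem_adjoin_iff_div] at htm
  obtain ⟨r, hr, s, hs, hrs⟩ := htm
  have hr0 : r ≠ 0 := by rintro rfl; rw [zero_div] at hrs; exact ht0 hrs
  have hs0 : s ≠ 0 := by rintro rfl; rw [div_zero] at hrs; exact ht0 hrs
  have h2 : P.ord U ∣ 1 := by
    rw [← ht, hrs, P.ord_div hr0 hs0]
    exact dvd_sub (h1 r hr hr0) (h1 s hs hs0)
  exact Int.eq_one_of_dvd_one hU.le h2

end Pool.Agent.T6.H13.CC
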