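import Pool.Agent.T6.H13.CC.Loc

/-! The parity theorem for functions with ramification indices one and three. -/

set_option autoImplicit false
set_option linter.unusedSectionVars false

open Module IntermediateField FF

namespace Pool.Agent.T6.H13.CC

universe u

namespace Cur

variable {k L : Type u} [Field k] [IsAlgClosed k] [Field L] [Algebra k L] (C : Cur k L)
  [CharP L 2]

/-- The ramification indices of `f` are one and three. -/
structure Ram13 (f : L) : Prop where
  fin : ∀ (P : Place k L) (c : k), 0 < P.ord (f - algebraMap k L c) →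
    P.ord (f - algebraMap k L c) = 1 ∨ P.ord (f - algebraMap k L c) = 3
  inf : ∀ P : Place k L, P.ord f < 0 → P.ord f = -1 ∨ P.ord f = -3

/-- The places at which `f` has a simple pole or a value with multiplicity three. -/
def Odd13 (f : L) (P : Place k L) : Prop :=
  P.ord f = -1 ∨ ∃ c : k, P.ord (f - algebraMap k L c) = 3

variable {C}

theorem sub_ne (f : L) (hf : C.der f ≠ 0) (c : k) : f - algebraMap k L c ≠ 0 := by
  intro h
  rw [sub_eq_zero.1 h] at hf
  exact hf (C.der_const c)

theorem place_case {f g : L} (hf : C.der f ≠ 0) (hg : C.der f = C.x * g ^ 2) (H : Ram13 (k := k) f)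
    (P : Place k L) :
    (Odd13 (k := k) f P ∧ P.ord (C.der g / g + C.eta) = -1 ∧
      Near P 0 (C.der (C.kap f) ^ 2 / C.der f + (C.der g / g + C.eta) +
        (C.der g / g + C.eta) ^ 2)) ∨
    (Near P 0 (C.der g / g + C.eta) ∧ Near P 0 (C.der (C.kap f) ^ 2 / C.der f) ∧
      ∃ m : ℤ, P.ord (C.der f) = 4 * m) := by
  obtain ⟨t, τ, G⟩ := C.good P
  have h2 := two0 L
  have hf0 : f ≠ 0 := by
    rintro rfl
    exact hf C.der_zero
  by_cases hinf : P.ord f < 0
  · obtain ⟨A, u, h1, -⟩ := G.dec_t f
    rcases H.inf P hinf with h3 | h3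
    · left
      have h4 := h3
      rw [h1] at h4 hf0
      obtain ⟨h5, h6, h7⟩ := G.split_odd (m := -1) hf0 (by rw [h4]; norm_num)
      have hA : Near P (2 * (-1) + 2) (C.der A) := by
        simpa using G.near_der_even (m := 0) (by simpa using h5)
      obtain ⟨h8, h9⟩ := G.odd_case h1 hg h6 (m := -1) (by rw [h7]; norm_num) hA
      exact ⟨Or.inl h3, h8, h9⟩
    · right
      have h4 := h3
      rw [h1] at h4 hf0
      obtain ⟨h5, h6, h7⟩ := G.split_odd (m := -2) hf0 (by rw [h4]; norm_num)
      have hA : Near P (2 * (-1)) (C.der A) := by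
        have := G.near_der (n := -1) (by simpa using h5)
        simpa using this
      obtain ⟨h8, h9, h10⟩ := G.even_case h1 hg h6 (m := -1) (by rw [h7]; norm_num) hA
      exact ⟨h8, h9, _, h10⟩
  · have hreg : P.Reg f := Or.inr (by omega)
    obtain ⟨c, hc⟩ := C.res P f hreg
    have hfc := sub_ne f hf c
    have hpos : 0 < P.ord (f - algebraMap k L c) := by
      have := (near_iff hfc).1 hc
      omega
    obtain ⟨d, hd⟩ := sqrt_const c
    obtain ⟨A, u, h1, -⟩ := G.dec_t (f - algebraMap k L c)
    have hfe : f = (A + algebraMap k L d) ^ 2 + t * u ^ 2 := by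
      rw [← hd, map_pow] at h1
      linear_combination h1 - A * algebraMap k L d * h2
    have hdA : C.der (A + algebraMap k L d) = C.der A := by
      rw [C.der_add, C.der_const, add_zero]
    rcases H.fin P c hpos with h3 | h3
    · right
      have h4 := h3
      rw [h1] at h4 hfc
      obtain ⟨h5, h6, h7⟩ := G.split_odd (m := 0) hfc (by rw [h4]; norm_num)
      have hA : Near P (2 * 0) (C.der (A + algebraMap k L d)) := by
        rw [hdA]
        exact G.near_der_even (m := 0) (h5.mono (by norm_num))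
      obtain ⟨h8, h9, h10⟩ := G.even_case hfe hg h6 (m := 0) (by rw [h7]; norm_num) hA
      exact ⟨h8, h9, _, h10⟩
    · left
      have h4 := h3
      rw [h1] at h4 hfc
      obtain ⟨h5, h6, h7⟩ := G.split_odd (m := 1) hfc (by rw [h4]; norm_num)
      have hA : Near P (2 * 0 + 2) (C.der (A + algebraMap k L d)) := by
        rw [hdA]
        simpa using G.near_der_even (m := 1) (h5.mono (by norm_num))
      obtain ⟨h8, h9⟩ := G.odd_case hfe hg h6 (m := 0) (by rw [h7]; norm_num) hA
      exact ⟨Or.inr ⟨c, h3⟩, h8, h9⟩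

/-- **The parity theorem.** -/
theorem parity {f : L} (hf : C.der f ≠ 0) (H : Ram13 (k := k) f) (S : Finset (Place k L))
    (hS : ∀ P, P ∈ S ↔ Odd13 (k := k) f P) : 4 ∣ S.card := by
  have h2 := two0 L
  obtain ⟨g, -, hg⟩ := C.dec_spec f
  have hg0 : g ≠ 0 := by
    rintro rfl
    apply hf
    rw [hg]; ring
  have hcase := fun P => place_case hf hg H P
  set ρ := C.der g / g + C.eta with hρ
  set h := C.kap f with hh
  have hdρ : C.der ρ = ρ + ρ ^ 2 := by
    rw [hρ, C.der_add, C.der_log g hg0, C.der_eta]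
    linear_combination (- C.der g / g * C.eta) * h2
  -- the function `s`
  have hs0 : C.der h ^ 2 / C.der f + ρ + ρ ^ 2 = 0 := by
    set s := C.der h ^ 2 / C.der f + ρ + ρ ^ 2 with hs
    by_contra hne
    have hds : C.der s = s := by
      have e : C.der h ^ 2 / C.der f = (C.der h / C.der f) ^ 2 * C.der f := by
        field_simp
      rw [hs, add_assoc, C.der_add, ← hdρ, C.der_der, e, C.der_sq_mul, C.der_der]
    have hds0 : C.der s ≠ 0 := by rw [hds]; exact hne
    obtain ⟨T, hT1, hT2⟩ := C.poles_der s hds0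
    have hpos := C.finrank_pos' s hds0
    rw [← hT2] at hpos
    have hTne : T.Nonempty := by
      rw [Finset.nonempty_iff_ne_empty]
      rintro rfl
      simp at hpos
    obtain ⟨P, hP⟩ := hTne
    have hPn := (hT1 P).1 hP
    have hreg : Near P 0 s := by
      rcases hcase P with ⟨-, -, h3⟩ | ⟨h3, h4, -⟩
      · exact h3
      · exact (h4.add h3).add (by simpa using h3.sq)
    rw [near_iff hne] at hreg
    omega
  have hmain : C.der h ^ 2 = ρ * (1 + ρ) * C.der f := by
    have e : C.der h ^ 2 = C.der h ^ 2 / C.der f * C.der f := by field_simp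
    rw [e]
    linear_combination (C.der f) * hs0 - (ρ + ρ ^ 2) * C.der f * h2
  rcases S.eq_empty_or_nonempty with rfl | hSne
  · simp
  -- the poles of `ρ`
  have hord : ∀ P ∈ S, P.ord ρ = -1 := by
    intro P hP
    rcases hcase P with ⟨-, h3, -⟩ | ⟨h3, -, h5⟩
    · exact h3
    · exfalso
      obtain ⟨m, hm⟩ := h5
      obtain ⟨t, τ, G⟩ := C.good P
      rcases (hS P).1 hP with h6 | ⟨c, h6⟩
      · have h7 := G.ord_der_odd (m := -1) (s := f) (by rintro rfl; exact hf C.der_zero)
          (by rw [h6]; norm_num)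
        omega
      · have h7 := G.ord_der_odd (m := 1) (s := f - algebraMap k L c) (sub_ne f hf c)
          (by rw [h6]; norm_num)
        have h8 : C.der (f - algebraMap k L c) = C.der f := by
          rw [sub_eq_add_neg, C.der_add, ← map_neg, C.der_const, add_zero]
        rw [h8] at h7
        omega
  obtain ⟨P0, hP0⟩ := hSne
  have hρ0 : ρ ≠ 0 := by
    intro h3
    have := hord P0 hP0
    rw [h3, P0.ord_zero] at this
    omega
  have hρ1 : 1 + ρ ≠ 0 := by
    intro h3
    have h4 : ρ = -1 := by linear_combination h3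
    have := hord P0 hP0
    rw [h4, P0.ord_neg_one] at this
    omega
  have hdρ0 : C.der ρ ≠ 0 := by
    rw [hdρ]
    have : ρ + ρ ^ 2 = ρ * (1 + ρ) := by ring
    rw [this]
    exact mul_ne_zero hρ0 hρ1
  have hdh0 : C.der h ≠ 0 := by
    intro h3
    rw [h3, zero_pow two_ne_zero] at hmain
    exact mul_ne_zero (mul_ne_zero hρ0 hρ1) hf hmain.symm
  obtain ⟨T, hT1, hT2⟩ := C.poles_der ρ hdρ0
  have hTS : T = S := by
    ext P
    rw [hT1, hS]
    constructor
    · intro h3
      rcases hcase P with ⟨h4, -, -⟩ | ⟨h4, -, -⟩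
      · exact h4
      · rw [near_iff hρ0] at h4
        omega
    · intro h3
      rw [hord P ((hS P).2 h3)]
      norm_num
  subst hTS
  have hcard : (T.card : ℤ) = finrank k⟮ρ⟯ L := by
    rw [← hT2, Finset.sum_congr rfl (fun P hP => by rw [hord P hP])]
    simp
  obtain ⟨Z, hZ1, -, hZ2⟩ := C.zeros_der ρ hdρ0
  have h4 : (4 : ℤ) ∣ T.card := by
    rw [hcard, ← hZ2]
    apply Finset.dvd_sum
    intro P hP
    have hPpos := (hZ1 P).1 hP
    obtain ⟨t, τ, G⟩ := C.good P
    rcases hcase P with ⟨-, h3, -⟩ | ⟨-, -, m, hm⟩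
    · omega
    · have h5 := congrArg P.ord hmain
      have h6 := (P.ord_add_eq (f := 1) (g := ρ) one_ne_zero hρ0 (by rw [P.ord_one]; exact hPpos)).2
      rw [P.ord_one] at h6
      rw [P.ord_pow, P.ord_mul (mul_ne_zero hρ0 hρ1) hf, P.ord_mul hρ0 hρ1, h6, hm] at h5
      push_cast at h5
      obtain ⟨r, hr⟩ := G.even_der hdh0
      exact ⟨r - m, by omega⟩
  exact_mod_cast h4

end Cur

end Pool.Agent.T6.H13.CC
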