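import Pool.Agent.T6.H13.CC.Near
import Pool.Agent.T6.H13.CC.Der

/-! The invariant derivation at the places. -/

set_option autoImplicit false
set_option linter.unusedSectionVars false

open Module IntermediateField FF Polynomial

namespace Pool.Agent.T6.H13.CC

universe u

namespace Cur

variable {k L : Type u} [Field k] [IsAlgClosed k] [Field L] [Algebra k L] (C : Cur k L)
  [CharP L 2]

theorem gen_of_der (u : L) (hu : C.der u ≠ 0) (s : L) : ∃ s0 s1 : L, s = s0 ^ 2 + u * s1 ^ 2 := by
  have h2 := two0 L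
  obtain ⟨u1, h1, h1'⟩ := C.dec_spec u
  have hu1 : u1 ≠ 0 := by
    rintro rfl
    apply hu
    rw [h1']; ring
  obtain ⟨s0, s1, hs⟩ := C.decomp s
  refine ⟨s0 + C.kap u * s1 / u1, s1 / u1, ?_⟩
  generalize C.kap u = p at h1
  rw [hs, h1]
  field_simp
  linear_combination (-s0 * u1 * p * s1 - p ^ 2 * s1 ^ 2) * h2

theorem sep_der (u : L) (hu : C.der u ≠ 0) :
    Algebra.IsSeparable k⟮u⟯ L ∧ FiniteDimensional k⟮u⟯ L := by
  have := C.ess
  exact sep_of_gen u (C.gen_of_der u hu)

theorem tr_der (u : L) (hu : C.der u ≠ 0) : Transcendental k u := by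
  intro h
  have h1 : IsIntegral k u := h.isIntegral
  have := IntermediateField.isAlgebraic_adjoin_simple h1
  have h2 := IntermediateField.eq_bot_of_isAlgClosed_of_isAlgebraic (IntermediateField.adjoin k {u})
  have h3 := IntermediateField.mem_adjoin_simple_self k u
  rw [h2, IntermediateField.mem_bot] at h3
  obtain ⟨c, rfl⟩ := h3
  exact hu (C.der_const c)

theorem zeros_der (u : L) (hu : C.der u ≠ 0) :
    ∃ S : Finset (Place k L), (∀ w, w ∈ S ↔ 0 < w.ord u) ∧ (∀ w ∈ S, 0 < w.deg) ∧
      ∑ w ∈ S, w.ord u = (finrank k⟮u⟯ L : ℤ) := by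
  obtain ⟨h1, h2⟩ := C.sep_der u hu
  have h3 := C.tr_der u hu
  obtain ⟨S, hS1, hS2⟩ := zeros_ac (k := k) (K := L) h3
  obtain ⟨S', hS1', hS2', -⟩ := zeros_sep (k := k) (K := L) h3
  refine ⟨S, hS1, ?_, hS2⟩
  intro w hw
  exact hS2' w ((hS1' w).2 ((hS1 w).1 hw))

theorem der_inv_ne (u : L) (hu : C.der u ≠ 0) : C.der u⁻¹ ≠ 0 := by
  have hu0 : u ≠ 0 := by
    rintro rfl
    exact hu C.der_zero
  have h1 : u⁻¹ = (u⁻¹) ^ 2 * u := by field_simp
  rw [h1, C.der_sq_mul]
  exact mul_ne_zero (pow_ne_zero _ (inv_ne_zero hu0)) hu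

theorem poles_der (u : L) (hu : C.der u ≠ 0) :
    ∃ S : Finset (Place k L), (∀ w, w ∈ S ↔ w.ord u < 0) ∧
      ∑ w ∈ S, - w.ord u = (finrank k⟮u⟯ L : ℤ) := by
  obtain ⟨S, hS1, -, hS2⟩ := C.zeros_der u⁻¹ (C.der_inv_ne u hu)
  rw [adj_inv] at hS2
  refine ⟨S, ?_, ?_⟩
  · intro w
    rw [hS1, w.ord_inv]; omega
  · rw [← hS2]
    refine Finset.sum_congr rfl fun w _ => ?_
    rw [w.ord_inv]

theorem finrank_pos' (u : L) (hu : C.der u ≠ 0) : 0 < (finrank k⟮u⟯ L : ℤ) := by
  obtain ⟨h1, h2⟩ := C.sep_der u hu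
  exact_mod_cast Module.finrank_pos (R := k⟮u⟯) (M := L)

include C in
/-- The residues. -/
theorem res (P : Place k L) (s : L) (hs : P.Reg s) : ∃ c : k, Near P 1 (s - algebraMap k L c) := by
  obtain ⟨t, ht0, ht⟩ := P.surj
  have hdt : C.der t ≠ 0 := by
    intro h
    have h1 := C.kap_sq t
    rw [h, add_zero] at h1
    have h3 := congrArg P.ord h1
    rw [P.ord_pow, ht] at h3
    push_cast at h3
    omega
  obtain ⟨S, hS1, hS2, -⟩ := C.zeros_der t hdt
  obtain ⟨c, hc⟩ := (deg_one P (hS2 P ((hS1 P).2 (by omega)))).2 s hs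
  exact ⟨c, by rcases hc with hc | hc
               · exact Or.inl hc
               · exact Or.inr (by omega)⟩

/-- Local data at a place: a uniformizer `t` with `∂ t = x τ²` a unit. -/
structure Good (P : Place k L) (t τ : L) : Prop where
  ht : P.ord t = 1
  τ0 : τ ≠ 0
  dt : C.der t = C.x * τ ^ 2
  ord : P.ord (C.der t) = 0
  reg : Near P 0 (C.der τ / τ + C.eta)

variable {P : Place k L}

theorem good_inf (hP : P.ord C.x < 0) : ∃ t τ, C.Good P t τ := by
  have h2 := two0 L
  have hx := C.x0
  have hB := C.B0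
  have hBo : P.ord C.B = 0 := P.ord_const C.b0
  have hBr : Near P 0 C.B := near_const C.b
  have heq := C.eqB
  set x := C.x with hxdef
  set y := C.y with hydef
  set B := C.B with hBdef
  -- the order of `y`
  have hx3 : x ^ 3 ≠ 0 := pow_ne_zero 3 hx
  have hR : x ^ 3 + B ^ 2 ≠ 0 ∧ P.ord (x ^ 3 + B ^ 2) = 3 * P.ord x := by
    have h := P.ord_add_eq hx3 (pow_ne_zero 2 hB) (by
      rw [P.ord_pow, P.ord_pow, hBo]; push_cast; omega)
    refine ⟨h.1, ?_⟩
    rw [h.2, P.ord_pow]; push_cast; ring
  have hyx : y * (y + x) = x ^ 3 + B ^ 2 := by rw [← heq]; ring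
  have hy0 : y ≠ 0 := by
    rintro h
    rw [h, zero_mul] at hyx
    exact hR.1 hyx.symm
  have hyx0 : y + x ≠ 0 := by
    rintro h
    rw [h, mul_zero] at hyx
    exact hR.1 hyx.symm
  have hsum : P.ord y + P.ord (y + x) = 3 * P.ord x := by
    rw [← P.ord_mul hy0 hyx0, hyx, hR.2]
  have hlt : P.ord y < P.ord x := by
    by_contra hge
    push Not at hge
    have := P.ord_add hy0 hx hyx0
    rw [min_eq_right hge] at this
    omega
  have hyx1 := (P.ord_add_eq hy0 hx hlt).2
  rw [hyx1] at hsum
  -- coordinates at infinity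
  have hz0 : x / y ≠ 0 := div_ne_zero hx hy0
  have hw0 : y⁻¹ ≠ 0 := inv_ne_zero hy0
  have hz : 0 < P.ord (x / y) := by rw [P.ord_div hx hy0]; omega
  have hw : 0 < P.ord y⁻¹ := by rw [P.ord_inv]; omega
  have hz1 : Near P 1 (x / y) := Or.inr hz
  have hw1 : Near P 1 y⁻¹ := Or.inr hw
  have hgen : IntermediateField.adjoin k {x / y, y⁻¹} = ⊤ := by
    rw [eq_top_iff, ← C.gen, IntermediateField.adjoin_le_iff]
    have hz' : x / y ∈ IntermediateField.adjoin k {x / y, y⁻¹} :=
      IntermediateField.subset_adjoin _ _ (Set.mem_insert _ _)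
    have hw' : y⁻¹ ∈ IntermediateField.adjoin k {x / y, y⁻¹} :=
      IntermediateField.subset_adjoin _ _ (Set.mem_insert_of_mem _ rfl)
    have hy' : y ∈ IntermediateField.adjoin k {x / y, y⁻¹} := by simpa using inv_mem hw'
    rintro _ (rfl | rfl)
    · have := mul_mem hz' hy'
      rwa [div_mul_cancel₀ _ hy0] at this
    · exact hy'
  have hone : P.ord (x / y) = 1 := by
    refine uniformizer_of (V := y⁻¹) hz0 hz ?_ hgen
    have hW : Near P 1 (x / y - B ^ 2 * (y⁻¹) ^ 2) :=
      hz1.sub ((hBr.sq.mul' hw1.sq (by norm_num)))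
    refine app_all (W := x / y - B ^ 2 * (y⁻¹) ^ 2) (c := (1 : k)) one_ne_zero hz1 hw1 hW ?_
      (X ^ 3) ?_
    · intro n hn
      have hz0' := hz1.mono (zero_le_one (α := ℤ))
      have e : x / y - B ^ 2 * (y⁻¹) ^ 2 = x / y + algebraMap k L (-C.b ^ 2) * (y⁻¹ * y⁻¹) := by
        rw [map_neg, map_pow]
        change _ = x / y + -B ^ 2 * (y⁻¹ * y⁻¹)
        ring
      rw [e]
      exact (app_self _).add ((app_const _ _).mul hz0' (by positivity)
        (hn.mul hz0' (by positivity) hn))
    · rw [map_one, map_pow, aeval_X]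
      field_simp
      linear_combination heq
  refine ⟨x / y, x / y, hone, hz0, ?_, ?_, ?_⟩
  · rw [C.der_div _ _ hy0, C.der_x, C.der_y, ← hxdef, ← hydef]
    field_simp
    linear_combination y * h2
  · have hd : C.der (x / y) = x ^ 3 / y ^ 2 := by
      rw [C.der_div _ _ hy0, C.der_x, C.der_y, ← hxdef, ← hydef]
      field_simp
      linear_combination y * h2
    rw [hd, P.ord_div hx3 (pow_ne_zero 2 hy0), P.ord_pow, P.ord_pow]
    push_cast
    omega
  · have hd : C.der (x / y) = x ^ 3 / y ^ 2 := by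
      rw [C.der_div _ _ hy0, C.der_x, C.der_y, ← hxdef, ← hydef]
      field_simp
      linear_combination y * h2
    have he : C.der (x / y) / (x / y) + C.eta = 1 + B ^ 2 / (x * y) + B / x := by
      rw [hd, eta, ← hxdef, ← hydef, ← hBdef]
      field_simp
      linear_combination heq + (x ^ 3 - x * y) * h2
    rw [he]
    have h1 : Near P 0 (1 : L) := P.reg_one
    refine (h1.add ?_).add ?_
    · exact (hBr.sq.div (mul_ne_zero hx hy0)).mono (by
        rw [P.ord_mul hx hy0]; omega)
    · exact (hBr.div hx).mono (by omega)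

theorem good_zero (hP : 0 < P.ord C.x) : ∃ t τ, C.Good P t τ := by
  have h2 := two0 L
  have hx := C.x0
  have hB := C.B0
  have hBo : P.ord C.B = 0 := P.ord_const C.b0
  have hBr : Near P 0 C.B := near_const C.b
  have heq := C.eqB
  set x := C.x with hxdef
  set y := C.y with hydef
  set B := C.B with hBdef
  have hx3 : x ^ 3 ≠ 0 := pow_ne_zero 3 hx
  have hR : x ^ 3 + B ^ 2 ≠ 0 ∧ P.ord (x ^ 3 + B ^ 2) = 0 := by
    have h := P.ord_add_eq (pow_ne_zero 2 hB) hx3 (by
      rw [P.ord_pow, P.ord_pow, hBo]; push_cast; omega)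
    rw [add_comm] at h
    refine ⟨h.1, ?_⟩
    rw [h.2, P.ord_pow, hBo, mul_zero]
  have hyx : y * (y + x) = x ^ 3 + B ^ 2 := by rw [← heq]; ring
  have hy0 : y ≠ 0 := by
    rintro h
    rw [h, zero_mul] at hyx
    exact hR.1 hyx.symm
  have hyx0 : y + x ≠ 0 := by
    rintro h
    rw [h, mul_zero] at hyx
    exact hR.1 hyx.symm
  have hsum : P.ord y + P.ord (y + x) = 0 := by
    rw [← P.ord_mul hy0 hyx0, hyx, hR.2]
  have hyo : P.ord y = 0 := by
    rcases lt_trichotomy (P.ord y) (P.ord x) with h | h | h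
    · rw [(P.ord_add_eq hy0 hx h).2] at hsum
      omega
    · have := P.ord_add hy0 hx hyx0
      rw [h, min_self] at this
      omega
    · have := (P.ord_add_eq hx hy0 h).2
      rw [add_comm] at this
      omega
  have hv := P.ord_add_eq hy0 (pow_ne_zero 2 hx) (by rw [P.ord_pow]; push_cast; omega)
  have hv0 : x ^ 2 + y ≠ 0 := by rw [add_comm]; exact hv.1
  have hvo : P.ord (x ^ 2 + y) = 0 := by rw [add_comm, hv.2, hyo]
  have hsq : (y + B) ^ 2 = x * (x ^ 2 + y) := by
    linear_combination heq + (y * B + B ^ 2 - x * y) * h2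
  have hU0 : y + B ≠ 0 := by
    intro h
    rw [h] at hsq
    exact mul_ne_zero hx hv0 (by rw [← hsq]; ring)
  have hUo : 2 * P.ord (y + B) = P.ord x := by
    have h := congrArg P.ord hsq
    rw [P.ord_pow, P.ord_mul hx hv0, hvo] at h
    push_cast at h
    omega
  have hU : 0 < P.ord (y + B) := by omega
  have hU1 : Near P 1 (y + B) := Or.inr hU
  have hV1 : Near P 1 x := Or.inr hP
  have hgen : IntermediateField.adjoin k {y + B, x} = ⊤ := by
    rw [eq_top_iff, ← C.gen, IntermediateField.adjoin_le_iff]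
    have hz' : y + B ∈ IntermediateField.adjoin k {y + B, x} :=
      IntermediateField.subset_adjoin _ _ (Set.mem_insert _ _)
    have hw' : x ∈ IntermediateField.adjoin k {y + B, x} :=
      IntermediateField.subset_adjoin _ _ (Set.mem_insert_of_mem _ rfl)
    rintro _ (rfl | rfl)
    · exact hw'
    · have := sub_mem hz' ((IntermediateField.adjoin k {y + B, x}).algebraMap_mem C.b)
      change y + B - B ∈ _ at this
      rwa [add_sub_cancel_right] at this
  have hone : P.ord (y + B) = 1 := by
    refine uniformizer_of (V := x) hU0 hU ?_ hgen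
    have hW : Near P 1 (x ^ 2 + (y + B)) :=
      (hV1.sq.mono (by norm_num)).add hU1
    refine app_all (W := x ^ 2 + (y + B)) (c := C.b) C.b0 hU1 hV1 hW ?_ (X ^ 2) ?_
    · intro n hn
      have hz0' := hU1.mono (zero_le_one (α := ℤ))
      rw [pow_two]
      exact (hn.mul hz0' (by positivity) hn).add (app_self _)
    · rw [map_pow, aeval_X]
      change x * (B + _) = _
      linear_combination - heq + (x * B + x * y - y * B - B ^ 2) * h2
  have hτ : C.der (y + B) = x * C.eta ^ 2 := by
    rw [C.der_add, hBdef, Cur.B, C.der_const, hydef, C.der_y, C.eta_sq, ← hxdef, ← hydef]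
    field_simp
    ring
  have heta0 : C.eta ≠ 0 := div_ne_zero hU0 hx
  refine ⟨y + B, C.eta, hone, heta0, hτ, ?_, ?_⟩
  · have hd : C.der (y + B) = x ^ 2 + y := by
      rw [C.der_add, hBdef, Cur.B, C.der_const, hydef, C.der_y, ← hxdef, ← hydef, add_zero]
    rw [hd, hvo]
  · have he : C.der C.eta / C.eta + C.eta = 1 := by
      rw [C.der_eta]
      field_simp
      linear_combination C.eta * h2
    rw [he]
    exact P.reg_one

include C in
theorem good_aff (hP : P.ord C.x = 0) : ∃ t τ, C.Good P t τ := by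
  have h2 := two0 L
  have hx := C.x0
  have hB := C.B0
  have hBr : Near P 0 C.B := near_const C.b
  have hch : CharP k 2 := (RingHom.charP_iff (algebraMap k L) (algebraMap k L).injective 2).mpr
    inferInstance
  have h2k : (2 : k) = 0 := CharTwo.two_eq_zero
  have heq := C.eqB
  have hxr : Near P 0 C.x := Or.inr hP.ge
  have hyr : Near P 0 C.y := by
    by_cases hy0 : C.y = 0
    · exact Or.inl hy0
    right
    by_contra hlt
    push Not at hlt
    have h := P.ord_add_eq hy0 hx (by omega)
    have hR : Near P 0 (C.x ^ 3 + C.B ^ 2) := (hxr.pow 3).add (by simpa using hBr.sq)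
    have hyx : C.y * (C.y + C.x) = C.x ^ 3 + C.B ^ 2 := by rw [← heq]; ring
    rw [← hyx, near_iff (mul_ne_zero hy0 h.1), P.ord_mul hy0 h.1, h.2] at hR
    omega
  obtain ⟨c, hc⟩ := C.res P C.x hxr
  obtain ⟨d, hd⟩ := C.res P C.y hyr
  have hc0 : c ≠ 0 := by
    rintro rfl
    rw [map_zero, sub_zero, near_iff hx] at hc
    omega
  have hcd : d ^ 2 + c * d = c ^ 3 + C.b ^ 2 := by
    by_contra hne
    have hne' : d ^ 2 + c * d - (c ^ 3 + C.b ^ 2) ≠ 0 := sub_ne_zero.2 hne
    have h3 : Near P 1 (algebraMap k L (d ^ 2 + c * d - (c ^ 3 + C.b ^ 2))) := by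
      have e : algebraMap k L (d ^ 2 + c * d - (c ^ 3 + C.b ^ 2)) =
          - ((C.y - algebraMap k L d) * (C.y + algebraMap k L d + C.x)
            + algebraMap k L d * (C.x - algebraMap k L c)
            - (C.x - algebraMap k L c) * (C.x ^ 2 + C.x * algebraMap k L c +
              algebraMap k L c ^ 2)) := by
        simp only [map_sub, map_add, map_mul, map_pow]
        have : algebraMap k L C.b = C.B := rfl
        rw [this]
        linear_combination heq
      rw [e]
      have hdr : Near P 0 (algebraMap k L d) := near_const d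
      have hcr : Near P 0 (algebraMap k L c) := near_const c
      refine ((Near.add ?_ ?_).sub ?_).neg
      · exact hd.mul' ((hyr.add hdr).add hxr) (by norm_num)
      · exact hdr.mul' hc (by norm_num)
      · exact hc.mul' (((hxr.pow 2).add (by simpa using hxr.mul hcr)).add (hcr.pow 2))
          (by norm_num)
    rw [near_iff ((_root_.map_ne_zero _).2 hne'), P.ord_const hne'] at h3
    omega
  set x := C.x with hxdef
  set y := C.y with hydef
  set B := C.B with hBdef
  set c' := algebraMap k L c with hc'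
  set d' := algebraMap k L d with hd'
  have hcd' : d' ^ 2 + c' * d' = c' ^ 3 + B ^ 2 := by
    have := congrArg (algebraMap k L) hcd
    simp only [map_add, map_mul, map_pow] at this
    exact this
  have hU0 : x - c' ≠ 0 := by
    intro h
    have h1 : C.der (x - c') = x := by
      rw [sub_eq_add_neg, C.der_add, hxdef, C.der_x, hc', ← map_neg, C.der_const, add_zero]
    rw [h, C.der_zero] at h1
    exact hx h1.symm
  have hU : 0 < P.ord (x - c') := by
    have := (near_iff hU0).1 hc
    omega
  have hgen : IntermediateField.adjoin k {x - c', y - d'} = ⊤ := by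
    rw [eq_top_iff, ← C.gen, IntermediateField.adjoin_le_iff]
    have hz' : x - c' ∈ IntermediateField.adjoin k {x - c', y - d'} :=
      IntermediateField.subset_adjoin _ _ (Set.mem_insert _ _)
    have hw' : y - d' ∈ IntermediateField.adjoin k {x - c', y - d'} :=
      IntermediateField.subset_adjoin _ _ (Set.mem_insert_of_mem _ rfl)
    rintro _ (rfl | rfl)
    · have := add_mem hz' ((IntermediateField.adjoin k {x - c', y - d'}).algebraMap_mem c)
      change x - c' + c' ∈ _ at this
      rwa [sub_add_cancel] at this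
    · have := add_mem hw' ((IntermediateField.adjoin k {x - c', y - d'}).algebraMap_mem d)
      change y - d' + d' ∈ _ at this
      rwa [sub_add_cancel] at this
  have hone : P.ord (x - c') = 1 := by
    refine uniformizer_of (V := y - d') hU0 hU ?_ hgen
    refine app_all (W := (y - d') + (x - c')) (c := c) hc0 hc hd (hd.add hc) ?_
      (Polynomial.C (3 * c ^ 2 - d) * X + Polynomial.C (3 * c) * X ^ 2 + X ^ 3) ?_
    · intro n hn
      exact hn.add (app_self _)
    · simp only [map_add, map_mul, map_pow, aeval_X, aeval_C, map_sub, map_ofNat]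
      rw [← hc', ← hd']
      linear_combination heq - hcd' - d' * (y - d') * h2
  refine ⟨x - c', 1, hone, one_ne_zero, ?_, ?_, ?_⟩
  · rw [sub_eq_add_neg, C.der_add, hxdef, C.der_x, hc', ← map_neg, C.der_const]
    ring
  · rw [sub_eq_add_neg, C.der_add, hxdef, C.der_x, hc', ← map_neg, C.der_const, add_zero, ← hxdef,
      hP]
  · rw [C.der_one, zero_div, zero_add, eta]
    exact (((hyr.add hBr).div hx).mono (by omega))

theorem good (P : Place k L) : ∃ t τ, C.Good P t τ := by
  rcases lt_trichotomy (P.ord C.x) 0 with h | h | h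
  · exact C.good_inf h
  · exact C.good_aff h
  · exact C.good_zero h

end Cur

end Pool.Agent.T6.H13.CC
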