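import Pool.Agent.T6.H13.CC.Zer

/-! Separating elements in characteristic two. -/

set_option autoImplicit false

open Module IntermediateField FF KaehlerDifferential

namespace Pool.Agent.T6.H13.CC

universe u

variable {k L : Type u} [Field k] [Field L] [Algebra k L]

theorem unram_of_gen [CharP L 2] (u : L) (h : ∀ s : L, ∃ s0 s1 : L, s = s0 ^ 2 + u * s1 ^ 2) :
    Algebra.FormallyUnramified k⟮u⟯ L := by
  have hD2 : ∀ z : L, KaehlerDifferential.D k⟮u⟯ L (z ^ 2) = 0 := by
    intro z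
    rw [pow_two, Derivation.leibniz, ← two_smul L, smul_smul, CharTwo.two_eq_zero, zero_mul,
      zero_smul]
  have hDu : KaehlerDifferential.D k⟮u⟯ L u = 0 := by
    have h1 : u = algebraMap k⟮u⟯ L (IntermediateField.AdjoinSimple.gen k u) := by simp
    rw [h1]
    exact Derivation.map_algebraMap _ _
  have hD : ∀ z : L, KaehlerDifferential.D k⟮u⟯ L z = 0 := by
    intro z
    obtain ⟨s0, s1, rfl⟩ := h z
    rw [map_add, hD2, Derivation.leibniz, hD2, hDu, smul_zero, smul_zero, add_zero, add_zero]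
  constructor
  have h3 := KaehlerDifferential.span_range_derivation k⟮u⟯ L
  have h4 : Set.range (KaehlerDifferential.D k⟮u⟯ L) ⊆ {0} := by
    rintro _ ⟨z, rfl⟩
    exact hD z
  have h5 : (⊤ : Submodule L (Ω[L⁄k⟮u⟯])) = ⊥ := by
    rw [← h3, eq_bot_iff]
    refine (Submodule.span_mono h4).trans ?_
    simp
  exact subsingleton_of_forall_eq 0 fun w => by
    have : w ∈ (⊤ : Submodule L (Ω[L⁄k⟮u⟯])) := Submodule.mem_top
    rw [h5] at this
    exact this

theorem sep_of_gen [CharP L 2] [Algebra.EssFiniteType k L] (u : L)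
    (h : ∀ s : L, ∃ s0 s1 : L, s = s0 ^ 2 + u * s1 ^ 2) :
    Algebra.IsSeparable k⟮u⟯ L ∧ FiniteDimensional k⟮u⟯ L := by
  have h1 := unram_of_gen (k := k) u h
  have h2 : Algebra.EssFiniteType k⟮u⟯ L := Algebra.EssFiniteType.of_comp k k⟮u⟯ L
  have h3 : Algebra.IsSeparable k⟮u⟯ L := (Algebra.FormallyUnramified.iff_isSeparable k⟮u⟯ L).1 h1
  exact ⟨h3, Algebra.FormallyUnramified.finite_of_free (R := k⟮u⟯) (S := L)⟩

/-- If `u` is transcendental and `L = L² + u L²` then `u` is not a square. -/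
theorem not_sq_of_gen [CharP L 2] [Algebra.EssFiniteType k L] (u : L) (hu : Transcendental k u)
    (h : ∀ s : L, ∃ s0 s1 : L, s = s0 ^ 2 + u * s1 ^ 2) (z : L) : z ^ 2 ≠ u := by
  intro hz
  obtain ⟨h1, -⟩ := sep_of_gen (k := k) u h
  have hch : CharP k⟮u⟯ 2 :=
    (RingHom.charP_iff (algebraMap k⟮u⟯ L) (algebraMap k⟮u⟯ L).injective 2).mpr inferInstance
  have hexp : ExpChar k⟮u⟯ 2 := ExpChar.prime Nat.prime_two
  have h2 : z ∈ perfectClosure k⟮u⟯ L := by
    rw [mem_perfectClosure_iff_pow_mem 2]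
    refine ⟨1, IntermediateField.AdjoinSimple.gen k u, ?_⟩
    simp [hz]
  rw [perfectClosure.eq_bot_of_isSeparable, IntermediateField.mem_bot] at h2
  obtain ⟨w, rfl⟩ := h2
  have h3 : w ^ 2 = IntermediateField.AdjoinSimple.gen k u := by
    apply (algebraMap k⟮u⟯ L).injective
    rw [map_pow, hz]
    simp
  let σ := RatFunc.algEquivOfTranscendental u hu
  obtain ⟨r, rfl⟩ := σ.surjective w
  have h4 : σ RatFunc.X = IntermediateField.AdjoinSimple.gen k u := by
    exact Subtype.ext (RatFunc.algEquivOfTranscendental_X u hu)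
  rw [← h4, ← map_pow] at h3
  have h5 := σ.injective h3
  have h6 := congrArg RatFunc.intDegree h5
  have hr : r ≠ 0 := by
    rintro rfl
    rw [zero_pow two_ne_zero] at h5
    exact RatFunc.X_ne_zero h5.symm
  rw [pow_two, RatFunc.intDegree_mul hr hr, RatFunc.intDegree_X] at h6
  omega

end Pool.Agent.T6.H13.CC
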