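import Pool.Agent.Helper386.D5V.Helper386_FF_Div

/-! Zeros of separating elements of a function field over an algebraically closed field. -/

set_option autoImplicit false

open Module IsDedekindDomain IntermediateField FF

namespace Pool.Agent.T6.H13.CC

variable {k K : Type*} [Field k] [Field K] [Algebra k K]

theorem zeros_sep {f : K} (hf : Transcendental k f) [FiniteDimensional k⟮f⟯ K]
    [Algebra.IsSeparable k⟮f⟯ K] :
    ∃ S : Finset (Place k K), (∀ w, w ∈ S ↔ 0 < w.ord f) ∧ (∀ w ∈ S, 0 < w.deg) ∧
      ∑ w ∈ S, (w.ord f).toNat * w.deg = finrank k⟮f⟯ K := by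
  open scoped algebraAdjoinAdjoin in
  let A := Algebra.adjoin k {f}
  let e := Polynomial.algEquivOfTranscendental k f hf
  have hpid : IsPrincipalIdealRing A := IsPrincipalIdealRing.of_surjective e.toRingEquiv e.surjective
  have hded : IsDedekindDomain A := inferInstance
  let π : A := ⟨f, Algebra.self_mem_adjoin_singleton k f⟩
  have hf0 : f ≠ 0 := by
    rintro rfl
    exact hf (isAlgebraic_zero)
  have hπ : π ≠ 0 := by
    intro h; exact hf0 (congrArg Subtype.val h)
  have heπ : e Polynomial.X = π := Polynomial.algEquivOfTranscendental_apply_X k f hf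
  have hmax : (Ideal.span {π}).IsMaximal := by
    have h1 : (Ideal.span {(Polynomial.X : Polynomial k)}).IsMaximal := by
      have := PrincipalIdealRing.isMaximal_of_irreducible (Polynomial.irreducible_X (R := k))
      exact this
    have h2 : Ideal.span {π} = Ideal.map e.toRingEquiv.toRingHom (Ideal.span {(Polynomial.X : Polynomial k)}) := by
      rw [Ideal.map_span, Set.image_singleton]
      congr 2
      exact heπ.symm
    rw [h2]
    exact Ideal.map_isMaximal_of_equiv e.toRingEquiv
  obtain ⟨S, hS1, hS2, hS3⟩ := fundamental (k := k) (A := A) (L := K) k⟮f⟯ π hπ hmax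
  have hreg : ∀ w : Place k K, 0 < w.ord f → ∀ a : A, w.Reg (algebraMap A K a) := by
    rintro w hw ⟨a, ha⟩
    change w.Reg a
    induction ha using Algebra.adjoin_induction with
    | mem x hx =>
      rw [Set.mem_singleton_iff] at hx
      subst hx
      exact Or.inr hw.le
    | algebraMap r => exact w.reg_const r
    | add x y _ _ hx hy => exact w.reg_add hx hy
    | mul x y _ _ hx hy => exact w.reg_mul hx hy
  have hS1' : ∀ w, w ∈ S ↔ 0 < w.ord f := by
    intro w
    rw [hS1]
    exact ⟨fun h => h.2, fun h => ⟨hreg w h, h⟩⟩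
  have hdeg : ∀ w ∈ S, w.relf A = w.deg := by
    intro w hw
    have hw0 := (hS1' w).1 hw
    have h1 : ∀ a : A, ∃ c : k, w.red (algebraMap A K a) = algebraMap k w.RF c := by
      rintro ⟨a, ha⟩
      change ∃ c : k, w.red a = algebraMap k w.RF c
      suffices hh : w.Reg a ∧ ∃ c : k, w.red a = algebraMap k w.RF c from hh.2
      induction ha using Algebra.adjoin_induction with
      | mem x hx =>
        rw [Set.mem_singleton_iff] at hx
        subst hx
        have hr : w.Reg x := Or.inr hw0.le
        exact ⟨hr, 0, by rw [map_zero, w.red_eq_zero_iff hr]; exact Or.inr hw0⟩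
      | algebraMap r => exact ⟨w.reg_const r, r, rfl⟩
      | add x y _ _ hx hy =>
        obtain ⟨hx, c, hc⟩ := hx
        obtain ⟨hy, d, hd⟩ := hy
        exact ⟨w.reg_add hx hy, c + d, by rw [w.red_add hx hy, hc, hd, map_add]⟩
      | mul x y _ _ hx hy =>
        obtain ⟨hx, c, hc⟩ := hx
        obtain ⟨hy, d, hd⟩ := hy
        exact ⟨w.reg_mul hx hy, c * d, by rw [w.red_mul hx hy, hc, hd, map_mul]⟩
    have h2 : Subfield.closure (Set.range fun a : A => w.red (algebraMap A K a)) = (algebraMap k w.RF).fieldRange := by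
      apply le_antisymm
      · rw [Subfield.closure_le]
        rintro _ ⟨a, rfl⟩
        obtain ⟨c, hc⟩ := h1 a
        exact ⟨c, hc.symm⟩
      · rintro _ ⟨c, rfl⟩
        apply Subfield.subset_closure
        exact ⟨algebraMap k A c, rfl⟩
    unfold Place.relf Place.deg
    rw [h2]
    let i : k ≃+* (algebraMap k w.RF).fieldRange :=
      RingEquiv.ofBijective (algebraMap k w.RF).rangeRestrictField
        ⟨(algebraMap k w.RF).rangeRestrictField.injective, by
          rintro ⟨_, ⟨c, rfl⟩⟩
          exact ⟨c, rfl⟩⟩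
    exact (Algebra.finrank_eq_of_equiv_equiv i (RingEquiv.refl _) (by ext; rfl)).symm
  refine ⟨S, hS1', ?_, ?_⟩
  · intro w hw
    rw [← hdeg w hw]
    exact hS2 w hw
  · rw [← hS3]
    refine Finset.sum_congr rfl fun w hw => ?_
    rw [hdeg w hw]
    rfl

/-- Over an algebraically closed field the places have degree one. -/
theorem deg_one [IsAlgClosed k] (P : Place k K) (h : 0 < P.deg) :
    P.deg = 1 ∧ ∀ s : K, P.Reg s → ∃ c : k, s - algebraMap k K c = 0 ∨
      0 < P.ord (s - algebraMap k K c) := by
  have hfin : FiniteDimensional k P.RF := FiniteDimensional.of_finrank_pos h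
  have hsurj : Function.Surjective (algebraMap k P.RF) :=
    (IsAlgClosed.algebraMap_bijective_of_isIntegral (k := k) (K := P.RF)).2
  constructor
  · unfold Place.deg
    rw [finrank_eq_one_iff']
    refine ⟨1, one_ne_zero, fun w => ?_⟩
    obtain ⟨c, rfl⟩ := hsurj w
    exact ⟨c, by rw [Algebra.smul_def, mul_one]⟩
  · intro s hs
    obtain ⟨c, hc⟩ := hsurj (P.red s)
    refine ⟨c, ?_⟩
    have hr : P.Reg (s - algebraMap k K c) := by
      rw [sub_eq_add_neg]
      exact P.reg_add hs (P.reg_neg (P.reg_const c))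
    rw [← P.red_eq_zero_iff hr, P.red_sub hs (P.reg_const c), ← hc, P.algebraMap_RF, sub_self]

/-- The number of zeros of a separating element. -/
theorem zeros_ac [IsAlgClosed k] {f : K} (hf : Transcendental k f) [FiniteDimensional k⟮f⟯ K]
    [Algebra.IsSeparable k⟮f⟯ K] :
    ∃ S : Finset (Place k K), (∀ w, w ∈ S ↔ 0 < w.ord f) ∧
      ∑ w ∈ S, w.ord f = (finrank k⟮f⟯ K : ℤ) := by
  obtain ⟨S, h1, h2, h3⟩ := zeros_sep hf
  refine ⟨S, h1, ?_⟩
  rw [← h3]
  push_cast
  refine Finset.sum_congr rfl fun w hw => ?_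
  rw [(deg_one w (h2 w hw)).1, Nat.cast_one, mul_one]
  have := (h1 w).1 hw
  omega

theorem adj_inv (f : K) : k⟮f⁻¹⟯ = k⟮f⟯ := by
  apply le_antisymm
  · rw [IntermediateField.adjoin_simple_le_iff]
    exact inv_mem (IntermediateField.mem_adjoin_simple_self k f)
  · rw [IntermediateField.adjoin_simple_le_iff]
    have := inv_mem (IntermediateField.mem_adjoin_simple_self k f⁻¹)
    rwa [inv_inv] at this

theorem adj_sub (f : K) (c : k) : k⟮f - algebraMap k K c⟯ = k⟮f⟯ := by
  apply le_antisymm
  · rw [IntermediateField.adjoin_simple_le_iff]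
    exact sub_mem (IntermediateField.mem_adjoin_simple_self k f) (k⟮f⟯.algebraMap_mem c)
  · rw [IntermediateField.adjoin_simple_le_iff]
    have := add_mem (IntermediateField.mem_adjoin_simple_self k (f - algebraMap k K c))
      (k⟮f - algebraMap k K c⟯.algebraMap_mem c)
    rwa [sub_add_cancel] at this

end Pool.Agent.T6.H13.CC
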